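import Pool.Agent.KS6_19.CG.Deg

/-!
Symbols with few nonconstant entries.
-/

set_option autoImplicit false
set_option linter.unusedSectionVars false

namespace Pool.Agent.KS6_19.CG

open FF Module Function Pool.Agent.TH826.MK

variable {k K : Type*} [Field k] [Field K] [Algebra k K]

/-- `x` is a constant, that is, an element of `k`. -/
def IsConst (k : Type*) {K : Type*} [Field k] [Field K] [Algebra k K] (x : Kˣ) : Prop :=
  ∃ c : k, algebraMap k K c = x

theorem IsConst.ne_zero {x : Kˣ} {c : k} (h : algebraMap k K c = x) : c ≠ 0 := by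
  rintro rfl
  rw [map_zero] at h
  exact x.ne_zero h.symm

/-- The constant `c` as a unit of `K`. -/
noncomputable def cu (c : k) (hc : c ≠ 0) : Kˣ := Units.mk0 (algebraMap k K c) (by simpa using hc)

theorem isConst_cu (c : k) (hc : c ≠ 0) : IsConst k (cu (K := K) c hc) := ⟨c, rfl⟩

/-- The span of the symbols of elements of `V`, at most `m` of which are not constant. -/
noncomputable def Wm (V : Submodule k K) (r m : ℕ) : Submodule ℚ (KQ K r) :=
  Submodule.span ℚ {z | ∃ (a : Fin r → Kˣ) (s : Finset (Fin r)), (∀ i, (a i : K) ∈ V) ∧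
    s.card ≤ m ∧ (∀ i, i ∉ s → IsConst k (a i)) ∧ z = symb a}

variable {V : Submodule k K} (h1 : (1 : K) ∈ V)

theorem Wm_mono {r m m' : ℕ} (h : m ≤ m') : Wm V r m ≤ Wm V r m' := by
  apply Submodule.span_mono
  rintro z ⟨a, s, h1, h2, h3, rfl⟩
  exact ⟨a, s, h1, h2.trans h, h3, rfl⟩

include h1

theorem const_mem {x : Kˣ} (hx : IsConst k x) : (x : K) ∈ V := by
  obtain ⟨c, hc⟩ := hx
  rw [← hc, Algebra.algebraMap_eq_smul_one]
  exact V.smul_mem c h1

/-- The pair lemma: a linear relation between two entries and the constants. -/
theorem pair_mem {r m : ℕ} (a : Fin r → Kˣ) (ha : ∀ i, (a i : K) ∈ V) (s : Finset (Fin r))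
    (hs : s.card ≤ m + 1) (hsc : ∀ i, i ∉ s → IsConst k (a i)) {i j : Fin r} (hij : i ≠ j)
    (hi : i ∈ s) (hj : j ∈ s) {c₁ c₂ c₀ : k} (hc₁ : c₁ ≠ 0) (hc₂ : c₂ ≠ 0)
    (h : algebraMap k K c₁ * a i + algebraMap k K c₂ * a j = algebraMap k K c₀) :
    symb a ∈ Wm V r m := by
  classical
  -- replacing an entry by a constant
  have key : ∀ z z' : Kˣ, (z : K) ∈ V → (z' : K) ∈ V → (IsConst k z ∨ IsConst k z') →
      symb (update (update a i z) j z') ∈ Wm V r m := by
    intro z z' hz hz' hc
    have hmem : ∀ l, ((update (update a i z) j z') l : K) ∈ V := by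
      intro l
      by_cases hlj : l = j
      · rw [hlj, update_self]; exact hz'
      rw [update_of_ne hlj]
      by_cases hli : l = i
      · rw [hli, update_self]; exact hz
      rw [update_of_ne hli]; exact ha l
    rcases hc with hc | hc
    · refine Submodule.subset_span ⟨_, s.erase i, hmem, ?_, ?_, rfl⟩
      · rw [Finset.card_erase_of_mem hi]; omega
      · intro l hl
        rw [Finset.mem_erase, not_and_or, not_not] at hl
        by_cases hlj : l = j
        · rcases hl with hl | hl
          · exact absurd (hl.symm.trans hlj) hij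
          · exact absurd (hlj ▸ hj) hl
        rw [update_of_ne hlj]
        by_cases hli : l = i
        · rw [hli, update_self]; exact hc
        rw [update_of_ne hli]
        exact hsc l (hl.resolve_left hli)
    · refine Submodule.subset_span ⟨_, s.erase j, hmem, ?_, ?_, rfl⟩
      · rw [Finset.card_erase_of_mem hj]; omega
      · intro l hl
        rw [Finset.mem_erase, not_and_or, not_not] at hl
        by_cases hlj : l = j
        · rw [hlj, update_self]; exact hc
        rw [update_of_ne hlj]
        by_cases hli : l = i
        · exact absurd (hli ▸ hi) (hl.resolve_left hlj)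
        rw [update_of_ne hli]
        exact hsc l (hl.resolve_left hlj)
  have e0 : update (update a i (a i)) j (a j) = a := by rw [update_eq_self, update_eq_self]
  have lmul : ∀ z z' t : Kˣ, symb (update (update a i (z * z')) j t) =
      symb (update (update a i z) j t) + symb (update (update a i z') j t) := by
    intro z z' t
    have e : ∀ v : Kˣ, update (update a i v) j t = update (update a j t) i v :=
      fun v => update_comm hij v t a
    rw [e, e, e, symb_update_mul]
  by_cases hc₀ : c₀ = 0
  · -- `a j` is a multiple of `a i`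
    have hd : -(c₁ / c₂) ≠ 0 := neg_ne_zero.2 (div_ne_zero hc₁ hc₂)
    have hc₂' : algebraMap k K c₂ ≠ 0 := by simpa using hc₂
    have haj : a j = cu (-(c₁ / c₂)) hd * a i := by
      ext
      simp only [cu, Units.val_mul, Units.val_mk0, map_neg, map_div₀]
      rw [hc₀, map_zero] at h
      field_simp
      linear_combination h
    have e1 : symb a = symb (update (update a i (a i)) j (cu (-(c₁ / c₂)) hd)) +
        symb (update (update a i (a i)) j (a i)) := by
      rw [← symb_update_mul, ← haj, e0]
    have e2 : symb (update (update a i (a i)) j (a i)) = 0 := by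
      refine symb_self _ hij ?_
      rw [update_of_ne hij, update_self, update_self]
    rw [e1, e2, add_zero]
    exact key _ _ (ha i) (const_mem h1 (isConst_cu _ hd)) (Or.inr (isConst_cu _ hd))
  · have hd₁ : c₁ / c₀ ≠ 0 := div_ne_zero hc₁ hc₀
    have hd₂ : c₂ / c₀ ≠ 0 := div_ne_zero hc₂ hc₀
    have hc₀' : algebraMap k K c₀ ≠ 0 := by simpa using hc₀
    have hst : symb (update (update a i (cu (c₁ / c₀) hd₁ * a i)) j (cu (c₂ / c₀) hd₂ * a j)) =
        0 := by
      refine symb_eq_zero' _ hij ?_
      rw [update_of_ne hij, update_self, update_self]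
      simp only [cu, Units.val_mul, Units.val_mk0, map_div₀]
      field_simp
      linear_combination h
    rw [symb_update_mul, lmul, lmul, e0] at hst
    have k1 := key _ _ (const_mem h1 (isConst_cu (K := K) _ hd₁))
      (const_mem h1 (isConst_cu (K := K) _ hd₂)) (Or.inl (isConst_cu _ hd₁))
    have k2 := key _ _ (ha i) (const_mem h1 (isConst_cu (K := K) _ hd₂))
      (Or.inr (isConst_cu _ hd₂))
    have k3 := key _ _ (const_mem h1 (isConst_cu (K := K) _ hd₁)) (ha j)
      (Or.inl (isConst_cu _ hd₁))
    have e1 : symb a = -(symb (update (update a i (cu (c₁ / c₀) hd₁)) j (cu (c₂ / c₀) hd₂)) +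
        symb (update (update a i (a i)) j (cu (c₂ / c₀) hd₂)) +
        symb (update (update a i (cu (c₁ / c₀) hd₁)) j (a j))) := by
      rw [eq_neg_iff_add_eq_zero, ← hst]
      abel
    rw [e1]
    exact Submodule.neg_mem _ (Submodule.add_mem _ (Submodule.add_mem _ k1 k2) k3)

/-- The triple lemma: a linear relation between three nonconstant entries and the constants. -/
theorem triple_mem {r m : ℕ} (a : Fin r → Kˣ) (ha : ∀ i, (a i : K) ∈ V) (s : Finset (Fin r))
    (hs : s.card ≤ m + 1) (hsc : ∀ i, i ∉ s → IsConst k (a i)) {i j l : Fin r} (hij : i ≠ j)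
    (hil : i ≠ l) (hjl : j ≠ l) (hi : i ∈ s) (hj : j ∈ s) (hl : l ∈ s)
    (hlc : ¬ IsConst k (a l)) {c₁ c₂ c₃ c₀ : k} (hc₁ : c₁ ≠ 0) (hc₂ : c₂ ≠ 0) (hc₃ : c₃ ≠ 0)
    (h : algebraMap k K c₁ * a i + algebraMap k K c₂ * a j + algebraMap k K c₃ * a l =
      algebraMap k K c₀) :
    symb a ∈ Wm V r m := by
  classical
  set w : K := algebraMap k K c₁ * a i + algebraMap k K c₂ * a j with hw
  have hc₃' : algebraMap k K c₃ ≠ 0 := by simpa using hc₃
  have hw0 : w ≠ 0 := by
    intro h0
    apply hlc
    refine ⟨c₀ / c₃, ?_⟩
    rw [h0, zero_add] at h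
    rw [map_div₀, ← h]
    field_simp
  set t : Kˣ := Units.mk0 w hw0 with ht
  have htV : (t : K) ∈ V := by
    show w ∈ V
    rw [hw, ← Algebra.smul_def, ← Algebra.smul_def]
    exact V.add_mem (V.smul_mem _ (ha i)) (V.smul_mem _ (ha j))
  have hrel : algebraMap k K (1 : k) * (t : K) + algebraMap k K c₃ * a l = algebraMap k K c₀ := by
    rw [map_one, one_mul]; exact h
  -- expansion
  have hx := symb_expand a hij (a i) (a j) (cu c₁ hc₁) (cu c₂ hc₂) t (by
    show algebraMap k K c₁ * a i + algebraMap k K c₂ * a j = w
    rw [hw])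
  have e0 : update (update a i (a i)) j (a j) = a := by rw [update_eq_self, update_eq_self]
  rw [e0] at hx
  -- symbols in which one of the entries `i`, `j` is constant
  have key : ∀ z z' : Kˣ, (z : K) ∈ V → (z' : K) ∈ V → (IsConst k z ∨ IsConst k z') →
      symb (update (update a i z) j z') ∈ Wm V r m := by
    intro z z' hz hz' hc
    have hmem : ∀ l, ((update (update a i z) j z') l : K) ∈ V := by
      intro l
      by_cases hlj : l = j
      · rw [hlj, update_self]; exact hz'
      rw [update_of_ne hlj]
      by_cases hli : l = i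
      · rw [hli, update_self]; exact hz
      rw [update_of_ne hli]; exact ha l
    rcases hc with hc | hc
    · refine Submodule.subset_span ⟨_, s.erase i, hmem, ?_, ?_, rfl⟩
      · rw [Finset.card_erase_of_mem hi]; omega
      · intro l hl
        rw [Finset.mem_erase, not_and_or, not_not] at hl
        by_cases hlj : l = j
        · rcases hl with hl | hl
          · exact absurd (hl.symm.trans hlj) hij
          · exact absurd (hlj ▸ hj) hl
        rw [update_of_ne hlj]
        by_cases hli : l = i
        · rw [hli, update_self]; exact hc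
        rw [update_of_ne hli]
        exact hsc l (hl.resolve_left hli)
    · refine Submodule.subset_span ⟨_, s.erase j, hmem, ?_, ?_, rfl⟩
      · rw [Finset.card_erase_of_mem hj]; omega
      · intro l hl
        rw [Finset.mem_erase, not_and_or, not_not] at hl
        by_cases hlj : l = j
        · rw [hlj, update_self]; exact hc
        rw [update_of_ne hlj]
        by_cases hli : l = i
        · exact absurd (hli ▸ hi) (hl.resolve_left hlj)
        rw [update_of_ne hli]
        exact hsc l (hl.resolve_left hlj)
  have kc₁ := isConst_cu (K := K) c₁ hc₁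
  have kc₂ := isConst_cu (K := K) c₂ hc₂
  -- the two symbols with the entry `t`
  have t1 : symb (update (update a i (a i)) j t) ∈ Wm V r m := by
    rw [update_eq_self]
    refine pair_mem h1 (update a j t) ?_ s hs ?_ hjl hj hl (one_ne_zero) hc₃ (c₀ := c₀) ?_
    · intro q
      by_cases hq : q = j
      · rw [hq, update_self]; exact htV
      · rw [update_of_ne hq]; exact ha q
    · intro q hq
      have hqj : q ≠ j := fun e => hq (e ▸ hj)
      rw [update_of_ne hqj]; exact hsc q hq
    · rw [update_self, update_of_ne hjl.symm]; exact hrel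
  have t2 : symb (update (update a i t) j (a j)) ∈ Wm V r m := by
    have e1 : update (update a i t) j (a j) = update a i t := by
      rw [update_eq_iff, update_of_ne hij.symm]
      exact ⟨rfl, fun _ _ => rfl⟩
    rw [e1]
    refine pair_mem h1 (update a i t) ?_ s hs ?_ hil hi hl (one_ne_zero) hc₃ (c₀ := c₀) ?_
    · intro q
      by_cases hq : q = i
      · rw [hq, update_self]; exact htV
      · rw [update_of_ne hq]; exact ha q
    · intro q hq
      have hqi : q ≠ i := fun e => hq (e ▸ hi)
      rw [update_of_ne hqi]; exact hsc q hq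
    · rw [update_self, update_of_ne hil.symm]; exact hrel
  rw [hx]
  refine Submodule.sub_mem _ (Submodule.sub_mem _ (Submodule.sub_mem _ (Submodule.add_mem _
    (Submodule.add_mem _ (Submodule.add_mem _ ?_ ?_) ?_) ?_) ?_) ?_) ?_
  · exact key _ _ (const_mem h1 kc₁) htV (Or.inl kc₁)
  · exact t1
  · exact key _ _ htV (const_mem h1 kc₂) (Or.inr kc₂)
  · exact t2
  · exact key _ _ (const_mem h1 kc₁) (const_mem h1 kc₂) (Or.inl kc₁)
  · exact key _ _ (const_mem h1 kc₁) (ha j) (Or.inl kc₁)
  · exact key _ _ (ha i) (const_mem h1 kc₂) (Or.inr kc₂)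

/-- In a space of dimension at most three, two nonconstant entries suffice. -/
theorem Wm_le_two [FiniteDimensional k V] (hV : finrank k V ≤ 3) (r m : ℕ) :
    Wm V r m ≤ Wm V r 2 := by
  classical
  -- one step
  have step : ∀ m : ℕ, Wm V r (m + 3) ≤ Wm V r (m + 2) := by
    intro m
    unfold Wm
    rw [Submodule.span_le]
    rintro z ⟨a, s, ha, hs, hsc, rfl⟩
    change symb a ∈ Wm V r (m + 2)
    rcases Nat.lt_or_ge s.card (m + 3) with hlt | hge
    · exact Submodule.subset_span ⟨a, s, ha, by omega, hsc, rfl⟩
    by_cases hcon : ∃ i ∈ s, IsConst k (a i)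
    · obtain ⟨i, hi, hic⟩ := hcon
      refine Submodule.subset_span ⟨a, s.erase i, ha, ?_, ?_, rfl⟩
      · rw [Finset.card_erase_of_mem hi]; omega
      · intro q hq
        rw [Finset.mem_erase, not_and_or, not_not] at hq
        rcases hq with hq | hq
        · rw [hq]; exact hic
        · exact hsc q hq
    push Not at hcon
    obtain ⟨i, hi, j, hj, l, hl, hij, hil, hjl⟩ := Finset.two_lt_card.1 (by omega : 2 < s.card)
    -- the linear relation
    let v : Fin 4 → V := ![⟨1, h1⟩, ⟨a i, ha i⟩, ⟨a j, ha j⟩, ⟨a l, ha l⟩]
    have hdep : ¬ LinearIndependent k v := by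
      intro h
      have := h.fintype_card_le_finrank
      simp at this
      omega
    rw [Fintype.not_linearIndependent_iff] at hdep
    obtain ⟨c, hc, hne⟩ := hdep
    have hrel : algebraMap k K (c 0) + algebraMap k K (c 1) * a i + algebraMap k K (c 2) * a j +
        algebraMap k K (c 3) * a l = 0 := by
      have := congrArg (Submodule.subtype V) hc
      rw [map_sum, map_zero] at this
      simp only [Fin.sum_univ_four, map_smul] at this
      simp only [v, Matrix.cons_val_zero, Matrix.cons_val_one, Matrix.cons_val,
        Submodule.subtype_apply, Algebra.smul_def, mul_one] at this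
      exact this
    -- an entry of `s` is not constant
    have single : ∀ q ∈ s, ∀ d d' : k, d ≠ 0 → algebraMap k K d' + algebraMap k K d * a q = 0 →
        False := by
      intro q hq d d' hd h
      have hd' : algebraMap k K d ≠ 0 := by simpa using hd
      apply hcon q hq
      refine ⟨-(d' / d), ?_⟩
      rw [map_neg, map_div₀]
      field_simp
      linear_combination -h
    by_cases h1' : c 1 = 0
    · by_cases h2' : c 2 = 0
      · by_cases h3' : c 3 = 0
        · exfalso
          rw [h1', h2', h3'] at hrel
          simp only [map_zero, zero_mul, add_zero] at hrel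
          have h0' : c 0 = 0 := by simpa using hrel
          obtain ⟨q, hq⟩ := hne
          fin_cases q
          · exact hq h0'
          · exact hq h1'
          · exact hq h2'
          · exact hq h3'
        · exfalso
          rw [h1', h2'] at hrel
          simp only [map_zero, zero_mul, add_zero] at hrel
          exact single l hl _ _ h3' hrel
      · by_cases h3' : c 3 = 0
        · exfalso
          rw [h1', h3'] at hrel
          simp only [map_zero, zero_mul, add_zero] at hrel
          exact single j hj _ _ h2' hrel
        · refine pair_mem h1 a ha s (by omega) hsc hjl hj hl h2' h3' (c₀ := -(c 0)) ?_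
          rw [h1'] at hrel
          rw [map_neg]
          simp only [map_zero, zero_mul, add_zero] at hrel
          linear_combination hrel
    · by_cases h2' : c 2 = 0
      · by_cases h3' : c 3 = 0
        · exfalso
          rw [h2', h3'] at hrel
          simp only [map_zero, zero_mul, add_zero] at hrel
          exact single i hi _ _ h1' hrel
        · refine pair_mem h1 a ha s (by omega) hsc hil hi hl h1' h3' (c₀ := -(c 0)) ?_
          rw [h2'] at hrel
          rw [map_neg]
          simp only [map_zero, zero_mul, add_zero] at hrel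
          linear_combination hrel
      · by_cases h3' : c 3 = 0
        · refine pair_mem h1 a ha s (by omega) hsc hij hi hj h1' h2' (c₀ := -(c 0)) ?_
          rw [h3'] at hrel
          rw [map_neg]
          simp only [map_zero, zero_mul, add_zero] at hrel
          linear_combination hrel
        · refine triple_mem h1 a ha s (by omega) hsc hij hil hjl hi hj hl (hcon l hl) h1' h2' h3'
            (c₀ := -(c 0)) ?_
          rw [map_neg]
          linear_combination hrel
  rcases Nat.lt_or_ge m 2 with hm | hm
  · exact Wm_mono (by omega)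
  · obtain ⟨d, rfl⟩ := Nat.exists_eq_add_of_le hm
    induction d with
    | zero => exact le_rfl
    | succ d ih =>
      have := step d
      exact (by simpa [add_comm, add_left_comm] using this : Wm V r (2 + (d + 1)) ≤ Wm V r (2 + d)).trans
        (ih (by omega))

omit h1 in
/-- On a curve of genus one with a rational point `I` the space `L 3` has dimension three. -/
theorem finrank_L_three_le [CharZero k] [IsFF k K] (hg : IsGenus k K 1) (I : Place k K)
    (hI : I.deg = 1) : finrank k (L I 3) ≤ 3 := by
  by_contra hc
  push Not at hc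
  have hm1 : finrank k (L I (-1)) = 0 := by
    have : L I (-1) = ⊥ := LL_eq_bot (by rw [ddeg_single, hI]; norm_num)
    rw [this]; simp
  have h0 : (finrank k (L I 0) : ℤ) ≤ 1 := by
    have := finrank_L_le I (show (-1 : ℤ) ≤ 0 by norm_num)
    rw [hm1, hI] at this
    simpa using this
  have h13 : (finrank k (L I 3) : ℤ) ≤ finrank k (L I 1) + 2 := by
    have := finrank_L_le I (show (1 : ℤ) ≤ 3 by norm_num)
    rw [hI] at this
    norm_num at this
    exact this
  have hlt : L I 0 ≠ L I 1 := by
    intro h
    rw [← h] at h13
    omega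
  have hle : L I 0 ≤ L I 1 := L_mono I (by norm_num)
  obtain ⟨t, ht1, ht0⟩ := SetLike.exists_of_lt (lt_of_le_of_ne hle hlt)
  have ht : t ≠ 0 := by
    rintro rfl
    exact ht0 (zero_mem _)
  have hord : I.ord t = -1 := by
    have h2 := (mem_L I ht).1 ht1
    have h3 : ¬ (-(0 : ℤ) ≤ I.ord t) := fun h => ht0 ((mem_L I ht).2 ⟨h, h2.2⟩)
    omega
  have hpow : ∀ n : ℕ, (n : ℤ) + 1 ≤ finrank k (L I n) := by
    intro n
    induction n with
    | zero =>
      have : 0 < finrank k (L I ((0 : ℕ) : ℤ)) := by
        rw [finrank_pos_iff_exists_ne_zero]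
        exact ⟨⟨1, one_mem_L I (by simp)⟩, fun h => one_ne_zero (congrArg Subtype.val h)⟩
      have h2 : (0 : ℤ) < finrank k (L I ((0 : ℕ) : ℤ)) := by exact_mod_cast this
      push_cast at h2 ⊢
      omega
    | succ n ih =>
      have h2 : L I (n : ℤ) < L I ((n + 1 : ℕ) : ℤ) := by
        refine lt_of_le_of_ne (L_mono I (by push_cast; omega)) ?_
        intro h
        have h3 : t ^ (n + 1) ∈ L I ((n + 1 : ℕ) : ℤ) := by
          rw [mem_L I (pow_ne_zero _ ht)]
          refine ⟨?_, fun P hP => ?_⟩
          · rw [I.ord_pow, hord]; push_cast; omega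
          · rw [P.ord_pow]
            exact mul_nonneg (by positivity) (((mem_L I ht).1 ht1).2 P hP)
        rw [← h, mem_L I (pow_ne_zero _ ht)] at h3
        have h4 := h3.1
        rw [I.ord_pow, hord] at h4
        push_cast at h4
        omega
      have h3 := Submodule.finrank_lt_finrank_of_lt h2
      push_cast
      push_cast at h3
      omega
  obtain ⟨M, hM⟩ := hg.2
  have h5 := hM (Finsupp.single I ((M.toNat : ℕ) : ℤ)) (by
    rw [divDegree_eq, ddeg_single, hI]
    push_cast
    omega)
  rw [divDegree_eq, ddeg_single, hI] at h5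
  have h6 := hpow M.toNat
  unfold L at h6
  push_cast at h5 h6
  omega

end Pool.Agent.KS6_19.CG
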