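import Pool.Agent.KS6_19.CG.Main

/-!
The degree of a place as the dimension of the quotient of the functions which are regular at the
place by the functions which vanish there.
-/

set_option autoImplicit false

namespace Pool.Agent.KS6_19.CG

open FF Module

variable {k K : Type*} [Field k] [Field K] [Algebra k K]

/-- The functions which are regular at `P`. -/
def regularAt (P : Place k K) : Submodule k K where
  carrier := {f | f = 0 ∨ 0 ≤ P.ord f}
  add_mem' := fun hf hg => P.reg_add hf hg
  zero_mem' := Or.inl rfl
  smul_mem' := fun c f hf => by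
    show P.Reg (c • f)
    rw [Algebra.smul_def]
    exact P.reg_mul (P.reg_const c) hf

/-- The functions which vanish at `P`. -/
def vanishingAt (P : Place k K) : Submodule k K where
  carrier := {f | f = 0 ∨ 0 < P.ord f}
  add_mem' := fun {f g} hf hg => by
    rcases hf with hf | hf
    · rw [hf, zero_add]; exact hg
    rcases hg with hg | hg
    · rw [hg, add_zero]; exact Or.inr hf
    by_cases h : f + g = 0
    · exact Or.inl h
    have hf0 : f ≠ 0 := by rintro rfl; rw [P.ord_zero] at hf; exact lt_irrefl _ hf
    have hg0 : g ≠ 0 := by rintro rfl; rw [P.ord_zero] at hg; exact lt_irrefl _ hg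
    exact Or.inr ((lt_min hf hg).trans_le (P.ord_add hf0 hg0 h))
  zero_mem' := Or.inl rfl
  smul_mem' := fun c f hf => by
    show c • f = 0 ∨ 0 < P.ord (c • f)
    rcases hf with hf | hf
    · left; rw [hf, smul_zero]
    by_cases hc : c = 0
    · left; rw [hc, zero_smul]
    right
    have hf0 : f ≠ 0 := by rintro rfl; rw [P.ord_zero] at hf; exact lt_irrefl _ hf
    rw [Algebra.smul_def, P.ord_mul (by simpa using hc) hf0, P.ord_const hc, zero_add]
    exact hf

/-- The degree of the closed point `P`: the dimension over `k` of its residue field, the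
quotient of the functions regular at `P` by the functions vanishing at `P`. -/
noncomputable def degree (P : Place k K) : ℕ :=
  finrank k (regularAt P ⧸ (vanishingAt P).comap (regularAt P).subtype)

theorem degree_eq (P : Place k K) : degree P = P.deg := by
  let φ : regularAt P →ₗ[k] P.RF :=
    { toFun := fun x => P.red x.1
      map_add' := fun x y => P.red_add x.2 y.2
      map_smul' := by
        intro c x
        rw [RingHom.id_apply, Algebra.smul_def c (P.red _), Place.algebraMap_RF,
          ← P.red_mul (P.reg_const c) x.2, ← Algebra.smul_def]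
        rfl }
  have hφ : Function.Surjective φ := by
    intro c
    obtain ⟨f, hf, hfc⟩ := P.red_surjective c
    exact ⟨⟨f, hf⟩, hfc⟩
  have hker : LinearMap.ker φ = (vanishingAt P).comap (regularAt P).subtype := by
    ext x
    rw [LinearMap.mem_ker, Submodule.mem_comap]
    exact P.red_eq_zero_iff x.2
  unfold degree
  rw [← hker]
  exact (φ.quotKerEquivOfSurjective hφ).finrank_eq

/-- The degree of a divisor. -/
noncomputable def divDegree (D : Place k K →₀ ℤ) : ℤ := D.sum fun P n => n * degree P

theorem divDegree_eq (D : Place k K →₀ ℤ) : divDegree D = ddeg D := by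
  unfold divDegree ddeg
  simp only [degree_eq]

/-- The characterisation of the genus by the theorem of Riemann: `ℓ(D) ≥ deg D + 1 - g` for all
divisors `D`, with equality if the degree of `D` is large. -/
def IsGenus (k K : Type*) [Field k] [Field K] [Algebra k K] (g : ℤ) : Prop :=
  (∀ D : Place k K →₀ ℤ, divDegree D + 1 - g ≤ finrank k (LL D)) ∧
    ∃ M : ℤ, ∀ D : Place k K →₀ ℤ, M ≤ divDegree D → finrank k (LL D) = divDegree D + 1 - g

variable (k K) in
theorem exists_isGenus [CharZero k] [IsFF k K] : ∃ g : ℤ, IsGenus k K g := by
  obtain ⟨γ, M, h1, h2⟩ := riemann k K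
  refine ⟨γ + 1, fun D => ?_, M, fun D hD => ?_⟩
  · have := h1 D
    rw [divDegree_eq]
    unfold ell at this
    omega
  · have := h2 D (by rwa [divDegree_eq] at hD)
    rw [divDegree_eq]
    unfold ell at this
    omega

theorem IsGenus.riemann [CharZero k] [IsFF k K] {g : ℤ} (h : IsGenus k K g) :
    ∀ D : Place k K →₀ ℤ, ddeg D + 1 - g ≤ ell D := by
  intro D
  have := h.1 D
  rw [divDegree_eq] at this
  exact this

theorem IsGenus.riemann_max [CharZero k] [IsFF k K] {g : ℤ} (h : IsGenus k K g) :
    ∀ D : Place k K →₀ ℤ, ddeg D + 1 - max g 1 ≤ ell D := by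
  intro D
  have := h.riemann D
  omega

end Pool.Agent.KS6_19.CG
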