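import Pool.Agent.KS6_19.CG.Lift
import Pool.Agent.KS6_19.KQ.Res

/-!
The key lemma: symbols with a one-unit among the entries of small degree.
-/

set_option autoImplicit false
set_option linter.unusedSectionVars false

namespace Pool.Agent.KS6_19.CG

open FF Module Function Pool.Agent.TH826.MK

variable {k K : Type*} [Field k] [Field K] [Algebra k K] [CharZero k] [IsFF k K]
variable (I : Place k K)

/-- The multiplicative group generated by the functions in `L n`. -/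
def Fg (n : ℤ) : Subgroup Kˣ := Subgroup.closure {u : Kˣ | (u : K) ∈ L I n}

/-- The subspace of `K_r^M(K) ⊗ ℚ` generated by the symbols of functions in `L n`. -/
noncomputable def U (n : ℤ) (r : ℕ) : Submodule ℚ (KQ K r) :=
  Submodule.span ℚ {z | ∃ a : Fin r → Kˣ, (∀ i, (a i : K) ∈ L I n) ∧ z = symb a}

theorem symb_mem_U {n : ℤ} {r : ℕ} (a : Fin r → Kˣ) (h : ∀ i, a i ∈ Fg I n) :
    symb a ∈ U I n r := by
  refine symb_mem_of_closure (U I n r) (fun _ => {u : Kˣ | (u : K) ∈ L I n}) ?_ a h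
  intro b hb
  exact Submodule.subset_span ⟨b, hb, rfl⟩

theorem U_mono {m n : ℤ} (h : m ≤ n) (r : ℕ) : U I m r ≤ U I n r := by
  apply Submodule.span_mono
  rintro z ⟨a, ha, rfl⟩
  exact ⟨a, fun i => L_mono I h (ha i), rfl⟩

theorem Fg_mono {m n : ℤ} (h : m ≤ n) : Fg I m ≤ Fg I n :=
  Subgroup.closure_mono fun _ hu => L_mono I h hu

theorem mem_Fg {n : ℤ} {u : Kˣ} (h : (u : K) ∈ L I n) : u ∈ Fg I n :=
  Subgroup.subset_closure h

theorem ord_of_mem_Fg {n : ℤ} {P : Place k K} (hP : P ≠ I) (hV : ¬ Van I n P) {u : Kˣ}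
    (hu : u ∈ Fg I n) : P.ord (u : K) = 0 := by
  unfold Fg at hu
  induction hu using Subgroup.closure_induction with
  | mem x hx => exact ord_eq_zero_of_not_Van I hP hV x.ne_zero hx
  | one => rw [Units.val_one, P.ord_one]
  | mul x y _ _ hx hy => rw [Units.val_mul, P.ord_mul x.ne_zero y.ne_zero, hx, hy]; rfl
  | inv x _ hx => rw [Units.val_inv_eq_inv_val, P.ord_inv, hx]; rfl

theorem symb_cons_mul {r : ℕ} (x y : Kˣ) (b : Fin r → Kˣ) :
    symb (Fin.cons (x * y) b : Fin (r + 1) → Kˣ) =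
      symb (Fin.cons x b : Fin (r + 1) → Kˣ) + symb (Fin.cons y b : Fin (r + 1) → Kˣ) := by
  have h := symb_update_mul (Fin.cons x b : Fin (r + 1) → Kˣ) 0 x y
  simpa only [Fin.update_cons_zero] using h

theorem symb_cons_update_mul {r : ℕ} (f : Kˣ) (b : Fin r → Kˣ) (i : Fin r) (x y : Kˣ) :
    symb (Fin.cons f (update b i (x * y)) : Fin (r + 1) → Kˣ) =
      symb (Fin.cons f (update b i x) : Fin (r + 1) → Kˣ) +
      symb (Fin.cons f (update b i y) : Fin (r + 1) → Kˣ) := by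
  rw [Fin.cons_update, Fin.cons_update, Fin.cons_update]
  exact symb_update_mul _ _ _ _

theorem symb_cons_update_one {r : ℕ} (f : Kˣ) (b : Fin r → Kˣ) (i : Fin r) :
    symb (Fin.cons f (update b i 1) : Fin (r + 1) → Kˣ) = 0 := by
  rw [Fin.cons_update]
  exact symb_update_one _ _

theorem symb_cons_update_inv {r : ℕ} (f : Kˣ) (b : Fin r → Kˣ) (i : Fin r) (x : Kˣ) :
    symb (Fin.cons f (update b i x⁻¹) : Fin (r + 1) → Kˣ) =
      - symb (Fin.cons f (update b i x) : Fin (r + 1) → Kˣ) := by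
  rw [Fin.cons_update, Fin.cons_update]
  exact symb_update_inv _ _ _

section Key

variable {g : ℤ} (hR : ∀ D : Place k K →₀ ℤ, ddeg D + 1 - g ≤ ell D)

include hR

/-- The numbers which bound the pole orders in the key lemma. -/
structure Nums (n g δ m e i j q : ℤ) : Prop where
  e1 : n * δ - m + g ≤ e * δ ∨ (n * δ = m ∧ 0 ≤ e)
  e2 : e ≤ n - 1
  ji : j ≤ i
  i2 : i ≤ n - 1
  d : 2 * m < (i * δ + 1 - g) + 2 * (j * δ + 1 - g)
  t1 : i + j ≤ 2 * n - 1 - e
  q1 : q ≤ j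
  q2 : n - 1 + q ≤ 2 * n - 1 - e
  dq : m < (i * δ + 1 - g) + (q * δ + 1 - g)

omit hR in
theorem exists_nums {n g δ m : ℤ} (hδ : 0 < δ) (hg : 1 ≤ g) (hn : 9 * g + 7 * δ - 9 ≤ 2 * (n * δ))
    (h1 : (n - 1) * δ + 1 - g ≤ m) (h2 : m ≤ n * δ) : ∃ e i j q : ℤ, Nums n g δ m e i j q := by
  -- comparison principle
  have cmp : ∀ a b : ℤ, a * δ < b * δ → a < b := fun a b h => lt_of_mul_lt_mul_right h hδ.le
  have h1' : n * δ - δ + 1 - g ≤ m := by linarith
  have hA : 3 * δ + 3 * g - 2 ≤ n * δ := by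
    generalize n * δ = A at *
    omega
  have hn1 : 1 < n := cmp 1 n (by omega)
  rcases eq_or_lt_of_le h2 with h3 | h3
  · refine ⟨0, n - 1, n - 1, n - 1, Or.inr ⟨h3.symm, le_rfl⟩, by omega, le_rfl, le_rfl, ?_,
      by omega, le_rfl, by omega, ?_⟩
    · have e : (n - 1) * δ = n * δ - δ := by ring
      rw [e]
      omega
    · have e : (n - 1) * δ = n * δ - δ := by ring
      rw [e]
      omega
  · obtain ⟨e, he1, he2⟩ : ∃ e : ℤ, n * δ - m + g ≤ e * δ ∧ e * δ ≤ n * δ - m + g + δ - 1 := by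
      refine ⟨-((-(n * δ - m + g)) / δ), ?_, ?_⟩
      · have := Int.ediv_mul_le (-(n * δ - m + g)) hδ.ne'
        linarith
      · have := Int.lt_ediv_add_one_mul_self (-(n * δ - m + g)) hδ
        linarith
    have he0 : 0 < e := cmp 0 e (by omega)
    have hen : e < n := cmp e n (by omega)
    have f1 : (2 * n - 1 - e) * δ ≤ (2 * ((2 * n - e) / 2)) * δ :=
      mul_le_mul_of_nonneg_right (by omega) hδ.le
    have f2 : (6 * n - 4 - 3 * e) * δ ≤ (2 * ((2 * n - e) / 2) + 4 * ((2 * n - 1 - e) / 2)) * δ :=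
      mul_le_mul_of_nonneg_right (by omega) hδ.le
    have e1 : (2 * n - 1 - e) * δ = 2 * (n * δ) - δ - e * δ := by ring
    have e2 : (2 * ((2 * n - e) / 2)) * δ = 2 * (((2 * n - e) / 2) * δ) := by ring
    have e3 : (6 * n - 4 - 3 * e) * δ = 6 * (n * δ) - 4 * δ - 3 * (e * δ) := by ring
    have e4 : (2 * ((2 * n - e) / 2) + 4 * ((2 * n - 1 - e) / 2)) * δ =
      2 * (((2 * n - e) / 2) * δ) + 4 * (((2 * n - 1 - e) / 2) * δ) := by ring
    have e5 : (n - e) * δ = n * δ - e * δ := by ring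
    rw [e1, e2] at f1
    rw [e3, e4] at f2
    refine ⟨e, (2 * n - e) / 2, (2 * n - 1 - e) / 2, n - e, Or.inl he1, by omega, by omega,
      by omega, ?_, by omega, by omega, by omega, ?_⟩
    · generalize ((2 * n - e) / 2) * δ = X at *
      generalize ((2 * n - 1 - e) / 2) * δ = Y at *
      generalize e * δ = B at *
      generalize n * δ = A at *
      omega
    · rw [e5]
      generalize ((2 * n - e) / 2) * δ = X at *
      generalize ((2 * n - 1 - e) / 2) * δ = Y at *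
      generalize e * δ = B at *
      generalize n * δ = A at *
      omega

/-- The first form of the key lemma. -/
theorem key_one {n t : ℤ} {e : ℤ} {P : Place k K} (hP : P ≠ I) {F : Kˣ} (hF : (F : K) ∈ L I n)
    (hFP : 0 < P.ord (F : K))
    (he1 : n * I.deg - P.deg + g ≤ e * I.deg ∨ (n * I.deg = P.deg ∧ 0 ≤ e)) (he2 : e ≤ n - 1)
    (ht : t ≤ 2 * n - 1 - e) {r : ℕ} (b : Fin r → Kˣ) (hb : ∀ l, b l ∈ Fg I (n - 1)) (l : Fin r)
    {x y : Kˣ} (hx : (x : K) ∈ L I t) (hy : (y : K) ∈ L I t) (hxF : x ∈ Fg I (n - 1))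
    (hyF : y ∈ Fg I (n - 1)) (hxP : P.ord (x : K) = 0) (hyP : P.ord (y : K) = 0)
    (hxy : bar P x = bar P y) :
    symb (Fin.cons F (update b l (y / x)) : Fin (r + 1) → Kˣ) ∈ U I (n - 1) (r + 1) := by
  by_cases hne : (x : K) = y
  · have : y / x = 1 := by rw [Units.ext hne, div_self']
    rw [this, symb_cons_update_one]
    exact zero_mem _
  have hh0 : (x : K) - y ≠ 0 := sub_ne_zero.2 hne
  have hh : (x : K) - y ∈ L I t := sub_mem hx hy
  have hhP : 0 < P.ord ((x : K) - y) := by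
    have h1 : P.red ((x : K) - y) = 0 := by
      rw [P.red_sub (Or.inr hxP.ge) (Or.inr hyP.ge), ← bar_of_ord_eq_zero P x hxP,
        ← bar_of_ord_eq_zero P y hyP, hxy, sub_self]
    have h2 : P.Reg ((x : K) - y) := by
      rw [sub_eq_add_neg]
      exact P.reg_add (Or.inr hxP.ge) (P.reg_neg (Or.inr hyP.ge))
    exact ((P.red_eq_zero_iff h2).1 h1).resolve_left hh0
  obtain ⟨s, u, hs0, hu0, hs, hu, hrel⟩ := exists_quot I hR hP F.ne_zero hF hFP hh0 hh hhP he1
  have hs' : s ∈ L I (n - 1) := L_mono I (by omega) hs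
  have hu' : u ∈ L I (n - 1) := L_mono I he2 hu
  set ℓ : Kˣ := Units.mk0 s hs0 / Units.mk0 u hu0 with hℓ
  have hℓF : ℓ ∈ Fg I (n - 1) := Subgroup.div_mem _ (mem_Fg I hs') (mem_Fg I hu')
  have hst : symb (Fin.cons (F * (ℓ / x)) (update b l (y / x)) : Fin (r + 1) → Kˣ) = 0 := by
    refine symb_eq_zero' _ (i := 0) (j := l.succ) (Fin.succ_ne_zero l).symm ?_
    rw [Fin.cons_zero, Fin.cons_succ, update_self]
    simp only [hℓ, Units.val_mul, Units.val_div_eq_div_val, Units.val_mk0]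
    have hx0 := x.ne_zero
    have h2 : (F : K) * (s / u / x) = ((x : K) - y) / x := by
      field_simp
      linear_combination -hrel
    rw [h2]
    field_simp
    ring
  rw [symb_cons_mul] at hst
  rw [eq_neg_of_add_eq_zero_left hst]
  apply Submodule.neg_mem
  apply symb_mem_U
  intro l'
  refine Fin.cases ?_ ?_ l'
  · rw [Fin.cons_zero]; exact Subgroup.div_mem _ hℓF hxF
  · intro l''
    rw [Fin.cons_succ]
    by_cases h : l'' = l
    · subst h; rw [update_self]; exact Subgroup.div_mem _ hyF hxF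
    · rw [update_of_ne h]; exact hb l''

/-- Lifts of the elements of the residue field. -/
theorem exists_lift' {n e i j q : ℤ} {P : Place k K} (hP : P ≠ I) (hV : ¬ Van I (n - 1) P)
    (hN : Nums n g I.deg P.deg e i j q) (α : P.RFˣ) :
    ∃ u v : Kˣ, (u : K) ∈ L I i ∧ (v : K) ∈ L I q ∧ bar P (u / v) = α := by
  have hq2 : q ≤ n - 1 := hN.q1.trans (hN.ji.trans hN.i2)
  obtain ⟨u, v, hu0, hv0, hu, hv, h⟩ := exists_lift I hR hP hV hN.i2 hq2 hN.dq α
  refine ⟨Units.mk0 u hu0, Units.mk0 v hv0, hu, hv, ?_⟩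
  have hu1 := ord_eq_zero_of_not_Van I hP hV hu0 (L_mono I hN.i2 hu)
  have hv1 := ord_eq_zero_of_not_Van I hP hV hv0 (L_mono I hq2 hv)
  rw [map_div, div_eq_iff_eq_mul]
  ext
  rw [Units.val_mul, bar_of_ord_eq_zero P (Units.mk0 u hu0) hu1,
    bar_of_ord_eq_zero P (Units.mk0 v hv0) hv1]
  exact h

theorem exists_triple' {n e i j q : ℤ} {P : Place k K} (hP : P ≠ I) (hV : ¬ Van I (n - 1) P)
    (hN : Nums n g I.deg P.deg e i j q) (α β : P.RFˣ) :
    ∃ a b d : Kˣ, (a : K) ∈ L I i ∧ (b : K) ∈ L I j ∧ (d : K) ∈ L I j ∧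
      bar P a = α * bar P b ∧ bar P b = β * bar P d := by
  have hj2 : j ≤ n - 1 := hN.ji.trans hN.i2
  obtain ⟨a, b, d, ha0, hb0, hd0, ha, hb, hd, h1, h2⟩ :=
    exists_triple I hR hP hV hN.i2 hj2 hN.d α β
  have ha1 := ord_eq_zero_of_not_Van I hP hV ha0 (L_mono I hN.i2 ha)
  have hb1 := ord_eq_zero_of_not_Van I hP hV hb0 (L_mono I hj2 hb)
  have hd1 := ord_eq_zero_of_not_Van I hP hV hd0 (L_mono I hj2 hd)
  refine ⟨Units.mk0 a ha0, Units.mk0 b hb0, Units.mk0 d hd0, ha, hb, hd, ?_, ?_⟩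
  · ext
    rw [Units.val_mul, bar_of_ord_eq_zero P (Units.mk0 a ha0) ha1,
      bar_of_ord_eq_zero P (Units.mk0 b hb0) hb1]
    exact h1
  · ext
    rw [Units.val_mul, bar_of_ord_eq_zero P (Units.mk0 b hb0) hb1,
      bar_of_ord_eq_zero P (Units.mk0 d hd0) hd1]
    exact h2

/-- **The key lemma.** -/
theorem key {n e i j q : ℤ} {P : Place k K} (hP : P ≠ I) (hV : ¬ Van I (n - 1) P)
    (hN : Nums n g I.deg P.deg e i j q) {F : Kˣ} (hF : (F : K) ∈ L I n)
    (hFP : 0 < P.ord (F : K)) {r : ℕ} (b : Fin r → Kˣ) (hb : ∀ l, b l ∈ Fg I (n - 1)) (l : Fin r)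
    {x : Kˣ} (hx : x ∈ Fg I (n - 1)) (hxP : bar P x = 1) :
    symb (Fin.cons F (update b l x) : Fin (r + 1) → Kˣ) ∈ U I (n - 1) (r + 1) := by
  have hi2 := hN.i2
  have hji := hN.ji
  have hqj := hN.q1
  have ht1 := hN.t1
  have ht2 := hN.q2
  have he2 := hN.e2
  have hunit : ∀ {w : Kˣ}, w ∈ Fg I (n - 1) → P.ord (w : K) = 0 := fun hw => ord_of_mem_Fg I hP hV hw
  -- the class modulo `U (n - 1)`
  let Ψ : Kˣ → KQ K (r + 1) ⧸ U I (n - 1) (r + 1) := fun x =>
    (U I (n - 1) (r + 1)).mkQ (symb (Fin.cons F (update b l x) : Fin (r + 1) → Kˣ))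
  have Ψmul : ∀ x y, Ψ (x * y) = Ψ x + Ψ y := by
    intro x y
    simp only [Ψ]
    rw [symb_cons_update_mul, map_add]
  have Ψone : Ψ 1 = 0 := by
    simp only [Ψ]
    rw [symb_cons_update_one, map_zero]
  have Ψinv : ∀ x, Ψ x⁻¹ = - Ψ x := by
    intro x
    simp only [Ψ]
    rw [symb_cons_update_inv, map_neg]
  have Ψdiv : ∀ x y, Ψ (x / y) = Ψ x - Ψ y := by
    intro x y
    rw [div_eq_mul_inv, Ψmul, Ψinv]
    exact (sub_eq_add_neg _ _).symm
  have Ψkey : ∀ {x y : Kˣ}, (x : K) ∈ L I (2 * n - 1 - e) → (y : K) ∈ L I (2 * n - 1 - e) →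
      x ∈ Fg I (n - 1) → y ∈ Fg I (n - 1) → bar P x = bar P y → Ψ x = Ψ y := by
    intro x y hx hy hxF hyF hxy
    have h := key_one I hR hP hF hFP hN.e1 hN.e2 le_rfl b hb l hx hy hxF hyF (hunit hxF)
      (hunit hyF) hxy
    have h2 : Ψ (y / x) = 0 := (Submodule.Quotient.mk_eq_zero _).2 h
    rw [Ψdiv] at h2
    exact (sub_eq_zero.1 h2).symm
  -- fractions with numerator in `L i` and denominator in `L j`
  have Ψfrac : ∀ {a c a' c' : Kˣ}, (a : K) ∈ L I i → (c : K) ∈ L I j → (a' : K) ∈ L I i →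
      (c' : K) ∈ L I j → bar P a * bar P c' = bar P a' * bar P c → Ψ a - Ψ c = Ψ a' - Ψ c' := by
    intro a c a' c' ha hc ha' hc' h
    have haF := mem_Fg I (L_mono I hi2 ha)
    have hcF := mem_Fg I (L_mono I (hji.trans hi2) hc)
    have haF' := mem_Fg I (L_mono I hi2 ha')
    have hcF' := mem_Fg I (L_mono I (hji.trans hi2) hc')
    have h1 : ((a * c' : Kˣ) : K) ∈ L I (2 * n - 1 - e) := by
      rw [Units.val_mul]
      exact L_mono I ht1 (mul_mem_L I ha hc')
    have h2 : ((a' * c : Kˣ) : K) ∈ L I (2 * n - 1 - e) := by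
      rw [Units.val_mul]
      exact L_mono I ht1 (mul_mem_L I ha' hc)
    have h3 := Ψkey h1 h2 (Subgroup.mul_mem _ haF hcF') (Subgroup.mul_mem _ haF' hcF)
      (by rw [map_mul, map_mul, h])
    rw [Ψmul, Ψmul] at h3
    rw [sub_eq_sub_iff_add_eq_add]
    exact h3
  have hex : ∀ α : P.RFˣ, ∃ u v : Kˣ, (u : K) ∈ L I i ∧ (v : K) ∈ L I q ∧ bar P (u / v) = α :=
    fun α => exists_lift' I hR hP hV hN α
  choose u v hu hv huv using hex
  have hv' : ∀ α, (v α : K) ∈ L I j := fun α => L_mono I hqj (hv α)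
  have huv' : ∀ α, bar P (u α) = α * bar P (v α) := by
    intro α
    have := huv α
    rwa [map_div, div_eq_iff_eq_mul] at this
  let χ : P.RFˣ → KQ K (r + 1) ⧸ U I (n - 1) (r + 1) := fun α => Ψ (u α) - Ψ (v α)
  have χeq : ∀ {a c : Kˣ} (α : P.RFˣ), (a : K) ∈ L I i → (c : K) ∈ L I j →
      bar P a = α * bar P c → χ α = Ψ a - Ψ c := by
    intro a c α ha hc h
    refine Ψfrac (hu α) (hv' α) ha hc ?_
    rw [h, huv' α]
    simp only [mul_comm, mul_left_comm, mul_assoc]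
  have χmul : ∀ α β, χ (α * β) = χ α + χ β := by
    intro α β
    obtain ⟨a, c, d, ha, hc, hd, h1, h2⟩ := exists_triple' I hR hP hV hN α β
    rw [χeq α ha hc h1, χeq β (L_mono I hji hc) hd h2,
      χeq (α * β) ha hd (by rw [h1, h2, mul_assoc])]
    abel
  have χone : χ 1 = 0 := by
    have h := χmul 1 1
    rw [one_mul] at h
    simpa using h
  have χinv : ∀ α, χ α⁻¹ = - χ α := by
    intro α
    have h := χmul α⁻¹ α
    rw [inv_mul_cancel, χone] at h
    exact eq_neg_of_add_eq_zero_left h.symm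
  have hgen : ∀ w : Kˣ, (w : K) ∈ L I (n - 1) → Ψ w = χ (bar P w) := by
    intro w hw
    have hwF := mem_Fg I hw
    have h1 : ((w * v (bar P w) : Kˣ) : K) ∈ L I (2 * n - 1 - e) := by
      rw [Units.val_mul]
      exact L_mono I ht2 (mul_mem_L I hw (hv (bar P w)))
    have h2 : (u (bar P w) : K) ∈ L I (2 * n - 1 - e) := L_mono I (by omega) (hu (bar P w))
    have h3 : bar P (w * v (bar P w)) = bar P (u (bar P w)) := by
      rw [map_mul, huv']
    have h4 := Ψkey h1 h2 (Subgroup.mul_mem _ hwF (mem_Fg I (L_mono I (hji.trans hi2) (hv' _))))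
      (mem_Fg I (L_mono I hi2 (hu _))) h3
    rw [Ψmul] at h4
    simp only [χ]
    rw [← h4]; abel
  have hall : ∀ w : Kˣ, w ∈ Fg I (n - 1) → Ψ w = χ (bar P w) := by
    intro w hw
    unfold Fg at hw
    induction hw using Subgroup.closure_induction with
    | mem x hx => exact hgen x hx
    | one => rw [Ψone, map_one, χone]
    | mul x y _ _ hx hy => rw [Ψmul, map_mul, χmul, hx, hy]
    | inv x _ hx => rw [Ψinv, map_inv, χinv, hx]
  have hfin := hall x hx
  rw [hxP, χone] at hfin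
  exact (Submodule.Quotient.mk_eq_zero _).1 hfin

/-- Lifts in the group generated by `L (n - 1)`, compatible with the relation `α + β = 1`. -/
theorem exists_lift_steinberg {n e i j q : ℤ} {P : Place k K} (hP : P ≠ I)
    (hV : ¬ Van I (n - 1) P) (hN : Nums n g I.deg P.deg e i j q) (α β : P.RFˣ)
    (h : (α : P.RF) + β = 1) :
    ∃ x y : Kˣ, x ∈ Fg I (n - 1) ∧ y ∈ Fg I (n - 1) ∧ bar P x = α ∧ bar P y = β ∧
      (x : K) + y = 1 := by
  obtain ⟨u, v, hu, hv, huv⟩ := exists_lift' I hR hP hV hN α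
  have hu' : (u : K) ∈ L I (n - 1) := L_mono I hN.i2 hu
  have hv' : (v : K) ∈ L I (n - 1) := L_mono I (hN.q1.trans (hN.ji.trans hN.i2)) hv
  have huF := mem_Fg I hu'
  have hvF := mem_Fg I hv'
  have hu1 := ord_of_mem_Fg I hP hV huF
  have hv1 := ord_of_mem_Fg I hP hV hvF
  have hα : P.red (u : K) = α * P.red (v : K) := by
    rw [map_div, div_eq_iff_eq_mul] at huv
    have := congrArg (Units.val) huv
    rwa [Units.val_mul, bar_of_ord_eq_zero P u hu1, bar_of_ord_eq_zero P v hv1] at this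
  have hw : P.red ((v : K) - u) = β * P.red (v : K) := by
    rw [P.red_sub (Or.inr hv1.ge) (Or.inr hu1.ge), hα]
    linear_combination -(P.red (v : K)) * h
  have hw0 : (v : K) - u ≠ 0 := by
    intro h0
    rw [h0, P.red_zero] at hw
    have := P.red_ne_zero v.ne_zero hv1
    exact mul_ne_zero β.ne_zero this hw.symm
  have hwL : (v : K) - u ∈ L I (n - 1) := sub_mem hv' hu'
  have hwF : Units.mk0 _ hw0 ∈ Fg I (n - 1) := mem_Fg I (by rwa [Units.val_mk0])
  have hw1 := ord_of_mem_Fg I hP hV hwF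
  refine ⟨u / v, Units.mk0 _ hw0 / v, Subgroup.div_mem _ huF hvF, Subgroup.div_mem _ hwF hvF,
    huv, ?_, ?_⟩
  · rw [map_div, div_eq_iff_eq_mul]
    ext
    rw [Units.val_mul, bar_of_ord_eq_zero P _ hw1, bar_of_ord_eq_zero P v hv1, Units.val_mk0, hw]
  · simp only [Units.val_div_eq_div_val, Units.val_mk0]
    have := v.ne_zero
    field_simp
    ring

end Key

end Pool.Agent.KS6_19.CG
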