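import Pool.Agent.KS6_19.CG.Space

/-!
Dimension counts: combinations of two functions with a smaller pole, and lifts of elements of the
residue fields.
-/

set_option autoImplicit false
set_option linter.unusedSectionVars false

namespace Pool.Agent.KS6_19.CG

open FF Module

variable {k K : Type*} [Field k] [Field K] [Algebra k K] [CharZero k] [IsFF k K]
variable (I : Place k K) {g : ℤ}

section RR

variable (hR : ∀ D : Place k K →₀ ℤ, ddeg D + 1 - g ≤ ell D)

include hR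

theorem finrank_L_ge (n : ℤ) : n * I.deg + 1 - g ≤ finrank k (L I n) := by
  have := hR (Finsupp.single I n)
  rwa [ddeg_single] at this

omit hR in
theorem finrank_L_le {m n : ℤ} (h : m ≤ n) :
    (finrank k (L I n) : ℤ) ≤ finrank k (L I m) + (n - m) * I.deg := by
  have h1 : (Finsupp.single I m : Place k K →₀ ℤ) ≤ Finsupp.single I n := by
    intro P
    by_cases hP : P = I
    · subst hP; simpa using h
    · rw [Finsupp.single_eq_of_ne hP, Finsupp.single_eq_of_ne hP]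
  have h2 := ell_le h1
  rw [ddeg_single, ddeg_single] at h2
  rw [ell_L, ell_L]
  linarith

theorem exists_comb {n c : ℤ} {F F' : K} (hF : F ∈ L I n) (hF' : F' ∈ L I n) (hc : -1 ≤ c)
    (hd : (c + 1) * I.deg < 2 * (c * I.deg + 1 - g)) :
    ∃ a b : K, (a ≠ 0 ∨ b ≠ 0) ∧ a ∈ L I c ∧ b ∈ L I c ∧ a * F + b * F' ∈ L I (n - 1) := by
  by_contra hcon
  push Not at hcon
  let φ : (L I c × L I c) →ₗ[k] K :=
    (LinearMap.mulRight k F ∘ₗ (L I c).subtype).coprod (LinearMap.mulRight k F' ∘ₗ (L I c).subtype)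
  have hφ : ∀ x : L I c × L I c, φ x = x.1.1 * F + x.2.1 * F' := fun x => rfl
  have hz : ∀ x : L I c × L I c, φ x ∈ L I (n - 1) → x = 0 := by
    intro x hx
    by_contra hx0
    have h1 : x.1.1 ≠ 0 ∨ x.2.1 ≠ 0 := by
      by_contra h
      push Not at h
      exact hx0 (Prod.ext (Subtype.ext h.1) (Subtype.ext h.2))
    exact hcon x.1.1 x.2.1 h1 x.1.2 x.2.2 hx
  have hinj : Function.Injective φ := by
    rw [injective_iff_map_eq_zero]
    intro x hx
    exact hz x (by rw [hx]; exact zero_mem _)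
  have hinf : LinearMap.range φ ⊓ L I (n - 1) = ⊥ := by
    rw [eq_bot_iff]
    rintro y ⟨⟨x, rfl⟩, hy⟩
    rw [hz x hy, map_zero]
    exact zero_mem _
  have hsup : LinearMap.range φ ⊔ L I (n - 1) ≤ L I (n + c) := by
    apply sup_le
    · rintro y ⟨x, rfl⟩
      rw [hφ]
      refine add_mem ?_ ?_
      · rw [add_comm n c]; exact mul_mem_L I x.1.2 hF
      · rw [add_comm n c]; exact mul_mem_L I x.2.2 hF'
    · exact L_mono I (by omega)
  have hr : finrank k (LinearMap.range φ) = finrank k (L I c) + finrank k (L I c) := by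
    rw [LinearMap.finrank_range_of_inj hinj, Module.finrank_prod]
  have h1 := Submodule.finrank_sup_add_finrank_inf_eq (LinearMap.range φ) (L I (n - 1))
  rw [hinf, finrank_bot, hr] at h1
  have h2 := Submodule.finrank_mono hsup
  have h3 := finrank_L_le I (show n - 1 ≤ n + c by omega)
  have h4 := finrank_L_ge I hR c
  have h5 : (n + c - (n - 1)) * (I.deg : ℤ) = (c + 1) * I.deg := by ring
  rw [h5] at h3
  omega

theorem exists_lift {N i j : ℤ} {P : Place k K} (hP : P ≠ I) (hV : ¬ Van I N P) (hi : i ≤ N)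
    (hj : j ≤ N) (hd : (P.deg : ℤ) < (i * I.deg + 1 - g) + (j * I.deg + 1 - g)) (α : P.RFˣ) :
    ∃ u v : K, u ≠ 0 ∧ v ≠ 0 ∧ u ∈ L I i ∧ v ∈ L I j ∧ P.red u = α * P.red v := by
  have hlin : ∀ (n : ℤ), ∃ φ : L I n →ₗ[k] P.RF, ∀ x : L I n, φ x = P.red x.1 := by
    intro n
    refine ⟨{ toFun := fun x => P.red x.1, map_add' := ?_, map_smul' := ?_ }, fun _ => rfl⟩
    · intro x y
      exact P.red_add (reg_of_mem_L I x.2 hP) (reg_of_mem_L I y.2 hP)
    · intro c x
      rw [RingHom.id_apply, Algebra.smul_def c (P.red _), Place.algebraMap_RF,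
        ← P.red_mul (P.reg_const c) (reg_of_mem_L I x.2 hP), ← Algebra.smul_def]
      rfl
  obtain ⟨φ, hφ⟩ := hlin i
  obtain ⟨ψ, hψ⟩ := hlin j
  let θ : (L I i × L I j) →ₗ[k] P.RF := φ.coprod ((LinearMap.mulLeft k (-(α : P.RF))) ∘ₗ ψ)
  have hθ : ∀ x, θ x = P.red x.1.1 + (-(α : P.RF)) * P.red x.2.1 := by
    intro x
    show φ x.1 + (-(α : P.RF)) * ψ x.2 = _
    rw [hφ, hψ]
  have hlt : finrank k P.RF < finrank k (L I i × L I j) := by
    rw [Module.finrank_prod]
    have h1 := finrank_L_ge I hR i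
    have h2 := finrank_L_ge I hR j
    have h3 : finrank k P.RF = P.deg := rfl
    rw [h3]
    omega
  have hker : LinearMap.ker θ ≠ ⊥ := LinearMap.ker_ne_bot_of_finrank_lt hlt
  obtain ⟨x, hx, hx0⟩ := Submodule.exists_mem_ne_zero_of_ne_bot hker
  rw [LinearMap.mem_ker, hθ] at hx
  have hred : P.red x.1.1 = α * P.red x.2.1 := by linear_combination hx
  have hz : ∀ (n : ℤ), n ≤ N → ∀ y : L I n, P.red y.1 = 0 → y = 0 := by
    intro n hn y hy
    by_contra hy0
    have hy1 : y.1 ≠ 0 := fun h => hy0 (Subtype.ext h)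
    have h1 := ord_eq_zero_of_not_Van I hP hV hy1 (L_mono I hn y.2)
    exact P.red_ne_zero hy1 h1 hy
  have hx1 : x.1 ≠ 0 := by
    intro h
    have h1 : P.red x.2.1 = 0 := by
      rw [h] at hred
      simp only [Submodule.coe_zero, P.red_zero] at hred
      exact (mul_eq_zero.1 hred.symm).resolve_left α.ne_zero
    exact hx0 (Prod.ext h (hz j hj _ h1))
  have hx2 : x.2 ≠ 0 := by
    intro h
    have h1 : P.red x.1.1 = 0 := by
      rw [h] at hred
      simp only [Submodule.coe_zero, P.red_zero, mul_zero] at hred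
      exact hred
    exact hx1 (hz i hi _ h1)
  exact ⟨x.1.1, x.2.1, fun h => hx1 (Subtype.ext h), fun h => hx2 (Subtype.ext h), x.1.2, x.2.2,
    hred⟩

/-- Simultaneous lifts for two elements of the residue field. -/
theorem exists_triple {N i j : ℤ} {P : Place k K} (hP : P ≠ I) (hV : ¬ Van I N P) (hi : i ≤ N)
    (hj : j ≤ N) (hd : 2 * (P.deg : ℤ) < (i * I.deg + 1 - g) + 2 * (j * I.deg + 1 - g))
    (α β : P.RFˣ) :
    ∃ a b d : K, a ≠ 0 ∧ b ≠ 0 ∧ d ≠ 0 ∧ a ∈ L I i ∧ b ∈ L I j ∧ d ∈ L I j ∧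
      P.red a = α * P.red b ∧ P.red b = β * P.red d := by
  have hlin : ∀ (n : ℤ), ∃ φ : L I n →ₗ[k] P.RF, ∀ x : L I n, φ x = P.red x.1 := by
    intro n
    refine ⟨{ toFun := fun x => P.red x.1, map_add' := ?_, map_smul' := ?_ }, fun _ => rfl⟩
    · intro x y
      exact P.red_add (reg_of_mem_L I x.2 hP) (reg_of_mem_L I y.2 hP)
    · intro c x
      rw [RingHom.id_apply, Algebra.smul_def c (P.red _), Place.algebraMap_RF,
        ← P.red_mul (P.reg_const c) (reg_of_mem_L I x.2 hP), ← Algebra.smul_def]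
      rfl
  obtain ⟨φ, hφ⟩ := hlin i
  obtain ⟨ψ, hψ⟩ := hlin j
  let θ : (L I i × (L I j × L I j)) →ₗ[k] (P.RF × P.RF) :=
    (φ.coprod (((LinearMap.mulLeft k (-(α : P.RF))) ∘ₗ ψ) ∘ₗ LinearMap.fst k _ _)).prod
      ((ψ.coprod ((LinearMap.mulLeft k (-(β : P.RF))) ∘ₗ ψ)) ∘ₗ LinearMap.snd k _ _)
  have hθ : ∀ x, θ x = (P.red x.1.1 + (-(α : P.RF)) * P.red x.2.1.1,
      P.red x.2.1.1 + (-(β : P.RF)) * P.red x.2.2.1) := by
    intro x
    show (φ x.1 + (-(α : P.RF)) * ψ x.2.1, ψ x.2.1 + (-(β : P.RF)) * ψ x.2.2) = _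
    rw [hφ, hψ, hψ]
  have hlt : finrank k (P.RF × P.RF) < finrank k (L I i × (L I j × L I j)) := by
    rw [Module.finrank_prod, Module.finrank_prod, Module.finrank_prod]
    have h1 := finrank_L_ge I hR i
    have h2 := finrank_L_ge I hR j
    have h3 : finrank k P.RF = P.deg := rfl
    rw [h3]
    omega
  have hker : LinearMap.ker θ ≠ ⊥ := LinearMap.ker_ne_bot_of_finrank_lt hlt
  obtain ⟨x, hx, hx0⟩ := Submodule.exists_mem_ne_zero_of_ne_bot hker
  rw [LinearMap.mem_ker, hθ, Prod.mk_eq_zero] at hx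
  have hr1 : P.red x.1.1 = α * P.red x.2.1.1 := by linear_combination hx.1
  have hr2 : P.red x.2.1.1 = β * P.red x.2.2.1 := by linear_combination hx.2
  have hz : ∀ (n : ℤ), n ≤ N → ∀ y : L I n, P.red y.1 = 0 → y = 0 := by
    intro n hn y hy
    by_contra hy0
    have hy1 : y.1 ≠ 0 := fun h => hy0 (Subtype.ext h)
    have h1 := ord_eq_zero_of_not_Van I hP hV hy1 (L_mono I hn y.2)
    exact P.red_ne_zero hy1 h1 hy
  have key : P.red x.2.1.1 ≠ 0 := by
    intro h
    have h1 : x.2.1 = 0 := hz j hj _ h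
    have h2 : x.1 = 0 := hz i hi _ (by rw [hr1, h, mul_zero])
    have h3 : x.2.2 = 0 := hz j hj _ (by
      rw [h] at hr2
      exact (mul_eq_zero.1 hr2.symm).resolve_left β.ne_zero)
    exact hx0 (Prod.ext h2 (Prod.ext h1 h3))
  refine ⟨x.1.1, x.2.1.1, x.2.2.1, ?_, ?_, ?_, x.1.2, x.2.1.2, x.2.2.2, hr1, hr2⟩
  · intro h
    rw [h, P.red_zero] at hr1
    exact mul_ne_zero α.ne_zero key hr1.symm
  · intro h
    rw [h, P.red_zero] at key
    exact key rfl
  · intro h
    rw [h, P.red_zero, mul_zero] at hr2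
    exact key hr2

end RR

end Pool.Agent.KS6_19.CG
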