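import Pool.Agent.KS6_19.CG.Step

/-!
The main theorem: the classes which are unramified at the places of large level are generated by
the symbols of functions of small degree.
-/

set_option autoImplicit false
set_option linter.unusedSectionVars false

namespace Pool.Agent.KS6_19.CG

open FF Module Function Pool.Agent.TH826.MK

theorem KQ_ext {A : Type*} [CommRing A] {n : ℕ} {V : Type*} [AddCommGroup V] [Module ℚ V]
    (f g : KQ A n →ₗ[ℚ] V) (h : ∀ a, f (symb a) = g (symb a)) : f = g := by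
  apply Submodule.linearMap_qext
  apply Finsupp.lhom_ext
  intro a q
  have h1 : (Finsupp.single a q : (Fin n → Aˣ) →₀ ℚ) = q • Finsupp.single a 1 := by
    rw [Finsupp.smul_single, smul_eq_mul, mul_one]
  rw [h1, map_smul, map_smul]
  congr 1
  exact h a

theorem KQ_span {A : Type*} [CommRing A] {n : ℕ} (W : Submodule ℚ (KQ A n))
    (h : ∀ a, symb a ∈ W) (x : KQ A n) : x ∈ W := by
  have e : W.mkQ = 0 := KQ_ext _ _ (fun a => (Submodule.Quotient.mk_eq_zero _).2 (h a))
  have h1 : W.mkQ x = 0 := by rw [e]; rfl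
  exact (Submodule.Quotient.mk_eq_zero _).1 h1

variable {k K : Type*} [Field k] [Field K] [Algebra k K] [CharZero k] [IsFF k K]
variable (I : Place k K)

section Step

variable {g : ℤ} (hR : ∀ D : Place k K →₀ ℤ, ddeg D + 1 - g ≤ ell D) (hg : 1 ≤ g) {n : ℤ}
  (hn : 9 * g + 7 * (I.deg : ℤ) - 9 ≤ 2 * (n * I.deg))

include hR hg hn

/-- Change of the entries without changing the residues. -/
theorem change {P : Place k K} (hP : Lev I n P) {F : Kˣ} (hF : (F : K) ∈ L I n)
    (hFP : 0 < P.ord (F : K)) {r : ℕ} (b b' : Fin r → Kˣ) (hb : ∀ l, b l ∈ Fg I (n - 1))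
    (hb' : ∀ l, b' l ∈ Fg I (n - 1)) (h : ∀ l, bar P (b l) = bar P (b' l)) :
    (U I (n - 1) (r + 1)).mkQ (symb (Fin.cons F b : Fin (r + 1) → Kˣ)) =
      (U I (n - 1) (r + 1)).mkQ (symb (Fin.cons F b' : Fin (r + 1) → Kˣ)) := by
  classical
  obtain ⟨e, i, j, q, hN⟩ := Lev.nums I hR hg hn hP
  have main : ∀ (s : Finset (Fin r)) (b : Fin r → Kˣ), (∀ l, b l ∈ Fg I (n - 1)) →
      (∀ l, bar P (b l) = bar P (b' l)) → (∀ l, l ∉ s → b l = b' l) →
      (U I (n - 1) (r + 1)).mkQ (symb (Fin.cons F b : Fin (r + 1) → Kˣ)) =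
      (U I (n - 1) (r + 1)).mkQ (symb (Fin.cons F b' : Fin (r + 1) → Kˣ)) := by
    intro s
    induction s using Finset.induction_on with
    | empty =>
      intro b _ _ h3
      have : b = b' := funext fun l => h3 l (Finset.notMem_empty l)
      rw [this]
    | insert m s hm ih =>
      intro b h1 h2 h3
      have hx : b m / b' m ∈ Fg I (n - 1) := Subgroup.div_mem _ (h1 m) (hb' m)
      have hx1 : bar P (b m / b' m) = 1 := by rw [map_div, h2 m, div_self']
      have hk := key I hR hP.ne hP.not hN hF hFP b h1 m hx hx1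
      have e1 : symb (Fin.cons F b : Fin (r + 1) → Kˣ) =
          symb (Fin.cons F (update b m (b m / b' m)) : Fin (r + 1) → Kˣ) +
          symb (Fin.cons F (update b m (b' m)) : Fin (r + 1) → Kˣ) := by
        rw [← symb_cons_update_mul, div_mul_cancel, update_eq_self]
      rw [e1, map_add]
      have e2 : (U I (n - 1) (r + 1)).mkQ
          (symb (Fin.cons F (update b m (b m / b' m)) : Fin (r + 1) → Kˣ)) = 0 :=
        (Submodule.Quotient.mk_eq_zero _).2 hk
      rw [e2, zero_add]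
      refine ih _ ?_ ?_ ?_
      · intro l
        by_cases hl : l = m
        · subst hl; rw [update_self]; exact hb' l
        · rw [update_of_ne hl]; exact h1 l
      · intro l
        by_cases hl : l = m
        · subst hl; rw [update_self]
        · rw [update_of_ne hl]; exact h2 l
      · intro l hl
        by_cases hlm : l = m
        · subst hlm; rw [update_self]
        · rw [update_of_ne hlm]; exact h3 l (by simp [hlm, hl])
  exact main Finset.univ b hb h (fun l hl => absurd (Finset.mem_univ l) hl)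

/-- The map `K_r^M(κ(P)) ⊗ ℚ → (K_{r+1}^M(K) ⊗ ℚ) / U (n - 1)`. -/
theorem exists_Phi {P : Place k K} (hP : Lev I n P) {F : Kˣ} (hF : (F : K) ∈ L I n)
    (hFP : 0 < P.ord (F : K)) (r : ℕ) :
    ∃ Φ : KQ P.RF r →ₗ[ℚ] (KQ K (r + 1) ⧸ U I (n - 1) (r + 1)),
      ∀ b : Fin r → Kˣ, (∀ l, b l ∈ Fg I (n - 1)) →
        Φ (symb fun l => bar P (b l)) =
          (U I (n - 1) (r + 1)).mkQ (symb (Fin.cons F b : Fin (r + 1) → Kˣ)) := by
  classical
  obtain ⟨e, i, j, q, hN⟩ := Lev.nums I hR hg hn hP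
  have hlift : ∀ α : P.RFˣ, ∃ x : Kˣ, x ∈ Fg I (n - 1) ∧ bar P x = α := by
    intro α
    obtain ⟨u, v, hu, hv, h⟩ := exists_lift' I hR hP.ne hP.not hN α
    exact ⟨u / v, Subgroup.div_mem _ (mem_Fg I (L_mono I hN.i2 hu))
      (mem_Fg I (L_mono I (hN.q1.trans (hN.ji.trans hN.i2)) hv)), h⟩
  choose lam hlam hlam' using hlift
  have hchange := fun b b' hb hb' h => change I hR hg hn hP hF hFP (r := r) b b' hb hb' h
  refine ⟨KQ.lift (fun c => (U I (n - 1) (r + 1)).mkQ
    (symb (Fin.cons F (fun l => lam (c l)) : Fin (r + 1) → Kˣ))) ?_ ?_, ?_⟩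
  · intro c m x y
    have e1 : ∀ z, (fun l => lam (update c m z l)) = update (fun l => lam (c l)) m (lam z) := by
      intro z
      funext l
      by_cases hl : l = m
      · subst hl; simp
      · simp [update_of_ne hl]
    show (U I (n - 1) (r + 1)).mkQ (symb (Fin.cons F (fun l => lam (update c m (x * y) l)) :
        Fin (r + 1) → Kˣ)) =
      (U I (n - 1) (r + 1)).mkQ (symb (Fin.cons F (fun l => lam (update c m x l)) :
        Fin (r + 1) → Kˣ)) +
      (U I (n - 1) (r + 1)).mkQ (symb (Fin.cons F (fun l => lam (update c m y l)) :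
        Fin (r + 1) → Kˣ))
    rw [e1 x, e1 y, ← map_add, ← symb_cons_update_mul]
    refine hchange _ _ (fun l => hlam _) ?_ ?_
    · intro l
      by_cases hl : l = m
      · subst hl; rw [update_self]; exact Subgroup.mul_mem _ (hlam _) (hlam _)
      · rw [update_of_ne hl]; exact hlam _
    · intro l
      by_cases hl : l = m
      · subst hl; rw [update_self, update_self, hlam', map_mul, hlam', hlam']
      · rw [update_of_ne hl, update_of_ne hl]
  · rintro c ⟨m, m', hmm, h⟩
    obtain ⟨x, y, hx, hy, hxc, hyc, hxy⟩ := exists_lift_steinberg I hR hP.ne hP.not hN _ _ h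
    have e1 := hchange (fun l => lam (c l)) (update (update (fun l => lam (c l)) m x) m' y)
      (fun l => hlam _) (by
        intro l
        by_cases hl : l = m'
        · subst hl; rw [update_self]; exact hy
        rw [update_of_ne hl]
        by_cases hl' : l = m
        · subst hl'; rw [update_self]; exact hx
        rw [update_of_ne hl']; exact hlam _) (by
        intro l
        by_cases hl : l = m'
        · subst hl; rw [update_self, hlam', hyc]
        rw [update_of_ne hl]
        by_cases hl' : l = m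
        · subst hl'; rw [update_self, hlam', hxc]
        rw [update_of_ne hl'])
    show (U I (n - 1) (r + 1)).mkQ (symb (Fin.cons F (fun l => lam (c l)) :
        Fin (r + 1) → Kˣ)) = 0
    rw [e1, symb_eq_zero' _ (i := m.succ) (j := m'.succ) (by
      intro h; exact hmm.ne (Fin.succ_injective _ h)) (by
      rw [Fin.cons_succ, Fin.cons_succ, update_of_ne hmm.ne, update_self, update_self, hxy]),
      map_zero]
  · intro b hb
    rw [KQ.lift_symb]
    refine hchange _ _ (fun l => hlam _) hb (fun l => ?_)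
    rw [hlam']

theorem step (r : ℕ) {α : KQ K (r + 1)} (hα : α ∈ U I n (r + 1))
    (hres : ∀ P : Place k K, Lev I n P → res P r α = 0) : α ∈ U I (n - 1) (r + 1) := by
  classical
  -- the functions `F P`
  have hex : ∀ P : Place k K, ∃ F : Kˣ, Lev I n P → ((F : K) ∈ L I n ∧ 0 < P.ord (F : K)) := by
    intro P
    by_cases h : Lev I n P
    · obtain ⟨f, hf0, hf, hfP⟩ := h.van
      exact ⟨Units.mk0 f hf0, fun _ => ⟨hf, hfP⟩⟩
    · exact ⟨1, fun h' => absurd h' h⟩
  choose F hF using hex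
  have hF1 : ∀ P, Lev I n P → (F P : K) ∈ L I n := fun P h => (hF P h).1
  have hF2 : ∀ P, Lev I n P → 0 < P.ord (F P : K) := fun P h => (hF P h).2
  have hΦex : ∀ P : {P : Place k K // Lev I n P},
      ∃ Φ : KQ P.1.RF r →ₗ[ℚ] (KQ K (r + 1) ⧸ U I (n - 1) (r + 1)),
      ∀ b : Fin r → Kˣ, (∀ l, b l ∈ Fg I (n - 1)) →
        Φ (symb fun l => bar P.1 (b l)) =
          (U I (n - 1) (r + 1)).mkQ (symb (Fin.cons (F P.1) b : Fin (r + 1) → Kˣ)) :=
    fun P => exists_Phi I hR hg hn P.2 (hF1 P.1 P.2) (hF2 P.1 P.2) r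
  choose Φ hΦ using hΦex
  -- the residue maps on the quotient
  have hkill : ∀ P : {P : Place k K // Lev I n P},
      U I (n - 1) (r + 1) ≤ LinearMap.ker (res P.1 r) := by
    intro P
    unfold U
    rw [Submodule.span_le]
    rintro z ⟨a, ha, rfl⟩
    exact res_symb_of_units P.1 a
      (fun i => ord_eq_zero_of_not_Van I P.2.ne P.2.not (a i).ne_zero (ha i))
  let rb : ∀ P : {P : Place k K // Lev I n P},
      (KQ K (r + 1) ⧸ U I (n - 1) (r + 1)) →ₗ[ℚ] KQ P.1.RF r := fun P =>
    (U I (n - 1) (r + 1)).liftQ (res P.1 r) (hkill P)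
  have hrb : ∀ (P : {P : Place k K // Lev I n P}) (z : KQ K (r + 1)),
      rb P ((U I (n - 1) (r + 1)).mkQ z) = res P.1 r z := fun P z => rfl
  have hlift : ∀ (P : {P : Place k K // Lev I n P}) (c : Fin r → P.1.RFˣ),
      ∃ b : Fin r → Kˣ, (∀ l, b l ∈ Fg I (n - 1)) ∧ c = fun l => bar P.1 (b l) := by
    intro P c
    obtain ⟨e, i, j, q, hN⟩ := Lev.nums I hR hg hn P.2
    have : ∀ l, ∃ x : Kˣ, x ∈ Fg I (n - 1) ∧ bar P.1 x = c l := by
      intro l
      obtain ⟨u, v, hu, hv, h⟩ := exists_lift' I hR P.2.ne P.2.not hN (c l)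
      exact ⟨u / v, Subgroup.div_mem _ (mem_Fg I (L_mono I hN.i2 hu))
        (mem_Fg I (L_mono I (hN.q1.trans (hN.ji.trans hN.i2)) hv)), h⟩
    choose b hb hb' using this
    exact ⟨b, hb, funext fun l => (hb' l).symm⟩
  have hself : ∀ P, (rb P) ∘ₗ (Φ P) = LinearMap.id := by
    intro P
    apply KQ_ext
    intro c
    obtain ⟨b, hb, rfl⟩ := hlift P c
    rw [LinearMap.comp_apply, hΦ P b hb, hrb, res_symb_cons P.1 _ _
      (fun l => ord_of_mem_Fg I P.2.ne P.2.not (hb l)),
      (Lev.ord_F I hR hg hn P.2 P.2 (hF1 _ P.2) (hF2 _ P.2)).1 rfl, one_smul]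
    rfl
  have hother : ∀ P Q, P ≠ Q → (rb Q) ∘ₗ (Φ P) = 0 := by
    intro P Q hPQ
    apply KQ_ext
    intro c
    obtain ⟨b, hb, rfl⟩ := hlift P c
    have hQP : Q.1 ≠ P.1 := fun h => hPQ (Subtype.ext h.symm)
    rw [LinearMap.comp_apply, hΦ P b hb, hrb, res_symb_cons Q.1 _ _
      (fun l => ord_of_mem_Fg I Q.2.ne Q.2.not (hb l)),
      (Lev.ord_F I hR hg hn P.2 Q.2 (hF1 _ P.2) (hF2 _ P.2)).2 hQP, zero_smul]
    rfl
  let T : (DirectSum {P : Place k K // Lev I n P} fun P => KQ P.1.RF r) →ₗ[ℚ]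
      (KQ K (r + 1) ⧸ U I (n - 1) (r + 1)) := DirectSum.toModule ℚ _ _ Φ
  have hT : ∀ P, (rb P) ∘ₗ T = DirectSum.component ℚ _ _ P := by
    intro P
    apply DirectSum.linearMap_ext
    intro Q
    ext c : 1
    rw [LinearMap.comp_apply, LinearMap.comp_apply, LinearMap.comp_apply]
    have e1 : T (DirectSum.lof ℚ _ _ Q c) = Φ Q c := DirectSum.toModule_lof ℚ _ _
    rw [e1]
    by_cases hPQ : Q = P
    · subst hPQ
      rw [DirectSum.component.lof_self]
      exact LinearMap.congr_fun (hself Q) c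
    · rw [DirectSum.component.of, dif_neg hPQ]
      exact LinearMap.congr_fun (hother Q P hPQ) c
  have hrange : W1 I n F r ≤ (LinearMap.range T).comap (U I (n - 1) (r + 1)).mkQ := by
    unfold W1
    rw [sup_le_iff]
    constructor
    · intro z hz
      rw [Submodule.mem_comap]
      have : (U I (n - 1) (r + 1)).mkQ z = 0 := (Submodule.Quotient.mk_eq_zero _).2 hz
      rw [this]
      exact zero_mem _
    · rw [Submodule.span_le]
      rintro z ⟨P, b, hP, hb, rfl⟩
      refine ⟨DirectSum.lof ℚ _ _ ⟨P, hP⟩ (symb fun l => bar P (b l)), ?_⟩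
      have e1 : T (DirectSum.lof ℚ _ _ ⟨P, hP⟩ (symb fun l => bar P (b l))) =
          Φ ⟨P, hP⟩ (symb fun l => bar P (b l)) := DirectSum.toModule_lof ℚ _ _
      rw [e1]
      exact hΦ ⟨P, hP⟩ b (fun l => mem_Fg I (hb l))
  obtain ⟨β, hβ⟩ := hrange (U_le_W1 I hR hg hn hF1 hF2 r hα)
  have hβ0 : β = 0 := by
    refine DFinsupp.ext fun P => ?_
    have h1 := LinearMap.congr_fun (hT P) β
    rw [LinearMap.comp_apply, hβ, hrb, hres P.1 P.2] at h1
    exact h1.symm
  rw [hβ0, map_zero] at hβ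
  exact (Submodule.Quotient.mk_eq_zero _).1 hβ.symm

end Step

section Final

variable {g : ℤ} (hR : ∀ D : Place k K →₀ ℤ, ddeg D + 1 - g ≤ ell D)

include hR

theorem exists_mem_Fg (u : Kˣ) : ∃ n : ℤ, u ∈ Fg I n := by
  have hδ := deg_pos' I
  obtain ⟨n, hn⟩ : ∃ n : ℤ, ddeg (polar (k := k) (u : K)) + g ≤ n * I.deg := by
    refine ⟨|ddeg (polar (k := k) (u : K)) + g|, ?_⟩
    have h1 := le_abs_self (ddeg (polar (k := k) (u : K)) + g)
    have h2 := abs_nonneg (ddeg (polar (k := k) (u : K)) + g)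
    nlinarith
  obtain ⟨v, hv, hv0⟩ := exists_ne_zero (k := k) (K := K) hR
    (D := Finsupp.single I n - polar (u : K)) (by
      rw [ddeg_sub, ddeg_single]; omega)
  have hv1 := (mem_LL' hv0).1 hv
  have hpol : (0 : Place k K →₀ ℤ) ≤ divisor k (u : K) + polar (u : K) := by
    intro P
    simp only [Finsupp.coe_zero, Pi.zero_apply, Finsupp.coe_add, Pi.add_apply, divisor_apply,
      polar_apply]
    omega
  have h1 : v ∈ L I n := LL_mono (sub_le_self _ (polar_nonneg (u : K))) hv
  have h2 : (u : K) * v ∈ L I n := by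
    unfold L
    rw [mem_LL' (mul_ne_zero u.ne_zero hv0), divisor_mul u.ne_zero hv0]
    have e1 : divisor k (u : K) + divisor k v + Finsupp.single I n =
        (divisor k (u : K) + polar (u : K)) + (divisor k v + (Finsupp.single I n - polar (u : K))) := by
      abel
    rw [e1]
    exact add_nonneg hpol hv1
  refine ⟨n, ?_⟩
  have e2 : u = (u * Units.mk0 v hv0) / Units.mk0 v hv0 := by rw [mul_div_cancel_right]
  rw [e2]
  exact Subgroup.div_mem _ (mem_Fg I (by rw [Units.val_mul]; exact h2)) (mem_Fg I h1)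

theorem exists_mem_U (r : ℕ) (α : KQ K r) : ∃ n : ℤ, α ∈ U I n r := by
  let W : Submodule ℚ (KQ K r) :=
    { carrier := {α | ∃ n : ℤ, α ∈ U I n r}
      add_mem' := by
        rintro a b ⟨m, hm⟩ ⟨n, hn⟩
        exact ⟨max m n, add_mem (U_mono I (le_max_left _ _) r hm)
          (U_mono I (le_max_right _ _) r hn)⟩
      zero_mem' := ⟨0, zero_mem _⟩
      smul_mem' := by
        rintro c a ⟨m, hm⟩
        exact ⟨m, Submodule.smul_mem _ c hm⟩ }
  refine KQ_span W (fun a => ?_) α
  have h : ∀ i, ∃ n : ℤ, a i ∈ Fg I n := fun i => exists_mem_Fg I hR (a i)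
  choose n hn using h
  refine ⟨∑ i, |n i|, symb_mem_U I a fun i => Fg_mono I ?_ (hn i)⟩
  exact (le_abs_self _).trans (Finset.single_le_sum (f := fun i => |n i|)
    (fun _ _ => abs_nonneg _) (Finset.mem_univ i))

/-- **Main theorem.** -/
theorem mem_U_of_res (hg : 1 ≤ g) {N : ℤ}
    (hN : 9 * g + 7 * (I.deg : ℤ) - 9 ≤ 2 * ((N + 1) * I.deg)) (r : ℕ) (α : KQ K (r + 1))
    (hα : ∀ P : Place k K, P ≠ I → ¬ Van I N P → res P r α = 0) : α ∈ U I N (r + 1) := by
  have hδ := deg_pos' I
  obtain ⟨n, hn⟩ := exists_mem_U I hR (r + 1) α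
  -- descending induction
  have main : ∀ d : ℕ, ∀ n : ℤ, n = N + d → α ∈ U I n (r + 1) → α ∈ U I N (r + 1) := by
    intro d
    induction d with
    | zero => intro n hn h; rw [hn] at h; simpa using h
    | succ d ih =>
      intro n hn h
      push_cast at hn
      refine ih (n - 1) (by omega) (step I hR hg (n := n) ?_ r h ?_)
      · have : (N + 1) * (I.deg : ℤ) ≤ n * I.deg := mul_le_mul_of_nonneg_right (by omega) hδ.le
        linarith
      · intro P hP
        exact hα P hP.ne (fun hv => hP.not (hv.mono (by omega)))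
  rcases le_total n N with h | h
  · exact U_mono I h _ hn
  · exact main (n - N).toNat n (by omega) hn

end Final

end Pool.Agent.KS6_19.CG
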