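import Pool.Graph.R_pool_sql_team_668148b0.Helper386.FF.Riemann

/-!
The spaces of functions with a single pole on a curve, and their elementary properties which
follow from the inequality of Riemann.
-/

set_option autoImplicit false
set_option linter.unusedSectionVars false

namespace Pool.Agent.KS6_19.CG

open FF Module

variable {k K : Type*} [Field k] [Field K] [Algebra k K] [CharZero k] [IsFF k K]

/-- The functions whose only pole is `I`, of order at most `n`. -/
noncomputable def L (I : Place k K) (n : ℤ) : Submodule k K := LL (Finsupp.single I n)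

variable (I : Place k K)

theorem mem_L {n : ℤ} {f : K} (hf : f ≠ 0) :
    f ∈ L I n ↔ -n ≤ I.ord f ∧ ∀ P : Place k K, P ≠ I → 0 ≤ P.ord f := by
  unfold L
  rw [mem_LL]
  simp only [hf, false_or]
  constructor
  · intro h
    refine ⟨by simpa using h I, fun P hP => ?_⟩
    have := h P
    rwa [Finsupp.single_eq_of_ne hP, neg_zero] at this
  · rintro ⟨h1, h2⟩ P
    by_cases hP : P = I
    · subst hP; simpa using h1
    · rw [Finsupp.single_eq_of_ne hP, neg_zero]; exact h2 P hP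

theorem L_mono {m n : ℤ} (h : m ≤ n) : L I m ≤ L I n := by
  apply LL_mono
  intro P
  by_cases hP : P = I
  · subst hP; simpa using h
  · rw [Finsupp.single_eq_of_ne hP, Finsupp.single_eq_of_ne hP]

theorem one_mem_L {n : ℤ} (h : 0 ≤ n) : (1 : K) ∈ L I n := by
  rw [mem_L I one_ne_zero]
  exact ⟨by rw [I.ord_one]; omega, fun P _ => by rw [P.ord_one]⟩

theorem mul_mem_L {m n : ℤ} {f g : K} (hf : f ∈ L I m) (hg : g ∈ L I n) : f * g ∈ L I (m + n) := by
  by_cases hf0 : f = 0
  · rw [hf0, zero_mul]; exact zero_mem _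
  by_cases hg0 : g = 0
  · rw [hg0, mul_zero]; exact zero_mem _
  rw [mem_L I (mul_ne_zero hf0 hg0)]
  have h1 := (mem_L I hf0).1 hf
  have h2 := (mem_L I hg0).1 hg
  refine ⟨?_, fun P hP => ?_⟩
  · rw [I.ord_mul hf0 hg0]; omega
  · rw [P.ord_mul hf0 hg0]
    have := h1.2 P hP
    have := h2.2 P hP
    omega

theorem ell_L (n : ℤ) : (finrank k (L I n) : ℤ) = ell (Finsupp.single I n) := rfl

instance (n : ℤ) : FiniteDimensional k (L I n) := finDim_LL _

theorem reg_of_mem_L {n : ℤ} {f : K} (hf : f ∈ L I n) {P : Place k K} (hP : P ≠ I) : P.Reg f := by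
  by_cases hf0 : f = 0
  · rw [hf0]; exact P.reg_zero
  · exact Or.inr (((mem_L I hf0).1 hf).2 P hP)

/-- `P` is a zero of a function with the only pole `I`, of order at most `n`. -/
def Van (n : ℤ) (P : Place k K) : Prop := ∃ f : K, f ≠ 0 ∧ f ∈ L I n ∧ 0 < P.ord f

theorem Van.mono {I : Place k K} {m n : ℤ} {P : Place k K} (h : Van I m P) (hmn : m ≤ n) :
    Van I n P := by
  obtain ⟨f, hf, hf1, hf2⟩ := h
  exact ⟨f, hf, L_mono I hmn hf1, hf2⟩

theorem ord_eq_zero_of_not_Van {n : ℤ} {P : Place k K} (hP : P ≠ I) (h : ¬ Van I n P) {f : K}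
    (hf0 : f ≠ 0) (hf : f ∈ L I n) : P.ord f = 0 := by
  have h1 := ((mem_L I hf0).1 hf).2 P hP
  by_contra hc
  exact h ⟨f, hf0, hf, by omega⟩

theorem mem_LL_sub {n : ℤ} {P : Place k K} (hP : P ≠ I) {f : K} (hf : f ≠ 0) :
    f ∈ LL (Finsupp.single I n - Finsupp.single P 1) ↔ f ∈ L I n ∧ 0 < P.ord f := by
  rw [mem_LL, mem_L I hf]
  simp only [hf, false_or, Finsupp.sub_apply]
  constructor
  · intro h
    refine ⟨⟨?_, fun Q hQ => ?_⟩, ?_⟩
    · have := h I
      rw [Finsupp.single_eq_same, Finsupp.single_eq_of_ne hP.symm] at this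
      omega
    · have := h Q
      rw [Finsupp.single_eq_of_ne hQ] at this
      by_cases hQP : Q = P
      · subst hQP
        rw [Finsupp.single_eq_same] at this
        omega
      · rw [Finsupp.single_eq_of_ne hQP] at this
        omega
    · have := h P
      rw [Finsupp.single_eq_same, Finsupp.single_eq_of_ne hP] at this
      omega
  · rintro ⟨⟨h1, h2⟩, h3⟩ Q
    by_cases hQ : Q = I
    · subst hQ
      rw [Finsupp.single_eq_same, Finsupp.single_eq_of_ne hP.symm]
      omega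
    · rw [Finsupp.single_eq_of_ne hQ]
      by_cases hQP : Q = P
      · subst hQP
        rw [Finsupp.single_eq_same]
        omega
      · rw [Finsupp.single_eq_of_ne hQP]
        have := h2 Q hQ
        omega

section RR

variable {g : ℤ} (hR : ∀ D : Place k K →₀ ℤ, ddeg D + 1 - g ≤ ell D)

include hR

theorem exists_ne_zero {D : Place k K →₀ ℤ} (h : g ≤ ddeg D) : ∃ f ∈ LL D, f ≠ 0 := by
  apply exists_ne_zero_of_ell_pos
  have := hR D
  omega

/-- The degree of a place which is not a zero of a function with pole order at most `n`. -/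
theorem deg_ge_of_not_Van {n : ℤ} {P : Place k K} (hP : P ≠ I) (h : ¬ Van I n P) :
    n * I.deg + 1 - g ≤ P.deg := by
  by_contra hc
  push Not at hc
  obtain ⟨f, hf, hf0⟩ := exists_ne_zero (k := k) (K := K) hR
    (D := Finsupp.single I n - Finsupp.single P 1) (by
      rw [ddeg_sub, ddeg_single, ddeg_single]; omega)
  have := (mem_LL_sub I hP hf0).1 hf
  exact h ⟨f, hf0, this.1, this.2⟩

omit hR in
theorem deg_le_of_Van {n : ℤ} {P : Place k K} (hP : P ≠ I) (h : Van I n P) :
    P.deg ≤ n * I.deg := by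
  obtain ⟨f, hf0, hf, hf1⟩ := h
  have h1 := (mem_LL_sub I hP hf0).2 ⟨hf, hf1⟩
  rw [mem_LL' hf0] at h1
  have h2 := ddeg_nonneg h1
  rw [ddeg_add, ddeg_divisor, ddeg_sub, ddeg_single, ddeg_single] at h2
  omega

/-- Division by a function which vanishes at `P`. -/
theorem exists_quot {n t e : ℤ} {P : Place k K} (hP : P ≠ I) {F h : K} (hF0 : F ≠ 0)
    (hF : F ∈ L I n) (hFP : 0 < P.ord F) (hh0 : h ≠ 0) (hh : h ∈ L I t) (hhP : 0 < P.ord h)
    (he : n * I.deg - P.deg + g ≤ e * I.deg ∨ (n * I.deg = P.deg ∧ 0 ≤ e)) :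
    ∃ s u : K, s ≠ 0 ∧ u ≠ 0 ∧ s ∈ L I (t + e - n) ∧ u ∈ L I e ∧ h * u = F * s := by
  set R : Place k K →₀ ℤ := divisor k F + (Finsupp.single I n - Finsupp.single P 1) with hRdef
  have hF1 := (mem_LL' hF0).1 ((mem_LL_sub I hP hF0).2 ⟨hF, hFP⟩)
  have hh1 := (mem_LL' hh0).1 ((mem_LL_sub I hP hh0).2 ⟨hh, hhP⟩)
  rw [← hRdef] at hF1
  have hRdeg : ddeg R = n * I.deg - P.deg := by
    rw [hRdef, ddeg_add, ddeg_divisor, ddeg_sub, ddeg_single, ddeg_single]; ring
  obtain ⟨u, hu, hu0⟩ : ∃ u ∈ LL (Finsupp.single I e - R), u ≠ 0 := by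
    rcases he with he | ⟨he, he0⟩
    · exact exists_ne_zero (k := k) (K := K) hR (D := Finsupp.single I e - R) (by
        rw [ddeg_sub, ddeg_single, hRdeg]; omega)
    · have hR0 : R = 0 := by
        by_contra hne
        have h1 : ∃ Q, R Q ≠ 0 := by
          by_contra hc
          push Not at hc
          exact hne (Finsupp.ext hc)
        obtain ⟨Q, hQ⟩ := h1
        have h2 : (0 : ℤ) ≤ R Q := hF1 Q
        have h3 : Finsupp.single Q 1 ≤ R := by
          intro Q'
          by_cases hq : Q' = Q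
          · subst hq; rw [Finsupp.single_eq_same]; omega
          · rw [Finsupp.single_eq_of_ne hq]; exact hF1 Q'
        have h4 := ddeg_mono h3
        have h5 : (0 : ℤ) < Q.deg := by exact_mod_cast Q.deg_pos
        rw [ddeg_single, hRdeg] at h4
        omega
      rw [hR0, sub_zero]
      exact ⟨1, one_mem_L I he0, one_ne_zero⟩
  have hu1 := (mem_LL' hu0).1 hu
  refine ⟨h * u / F, u, div_ne_zero (mul_ne_zero hh0 hu0) hF0, hu0, ?_, ?_, ?_⟩
  · unfold L
    rw [mem_LL' (div_ne_zero (mul_ne_zero hh0 hu0) hF0), div_eq_mul_inv,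
      divisor_mul (mul_ne_zero hh0 hu0) (inv_ne_zero hF0), divisor_mul hh0 hu0, divisor_inv]
    have e1 : divisor k h + divisor k u + -divisor k F + Finsupp.single I (t + e - n) =
        (divisor k h + (Finsupp.single I t - Finsupp.single P 1)) +
        (divisor k u + (Finsupp.single I e - R)) := by
      rw [hRdef, show t + e - n = t + e + (-n) by ring, Finsupp.single_add, Finsupp.single_add,
        Finsupp.single_neg]
      abel
    rw [e1]
    exact add_nonneg hh1 hu1
  · refine LL_mono ?_ hu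
    exact sub_le_self _ hF1
  · field_simp

omit hR in
/-- The remaining zeros of a function in `L n` which vanishes at `P`. -/
theorem ord_of_mem_L_of_deg {n : ℤ} {P Q : Place k K} (hP : P ≠ I) (hQ : Q ≠ I) {F : K}
    (hF0 : F ≠ 0) (hF : F ∈ L I n) (hFP : 0 < P.ord F)
    (hdeg : n * I.deg - P.deg < Q.deg) : (Q = P → Q.ord F = 1) ∧ (Q ≠ P → Q.ord F = 0) := by
  have hF1 := (mem_LL' hF0).1 ((mem_LL_sub I hP hF0).2 ⟨hF, hFP⟩)
  set R : Place k K →₀ ℤ := divisor k F + (Finsupp.single I n - Finsupp.single P 1) with hRdef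
  have hRdeg : ddeg R = n * I.deg - P.deg := by
    rw [hRdef, ddeg_add, ddeg_divisor, ddeg_sub, ddeg_single, ddeg_single]; ring
  have h0 : R Q = 0 := by
    by_contra hc
    have h1 : 1 ≤ R Q := by
      have : (0 : ℤ) ≤ R Q := hF1 Q
      omega
    have h2 : Finsupp.single Q 1 ≤ R := by
      intro Q'
      by_cases hq : Q' = Q
      · subst hq; simpa using h1
      · rw [Finsupp.single_eq_of_ne hq]; exact hF1 Q'
    have h3 := ddeg_mono h2
    rw [ddeg_single, hRdeg] at h3
    omega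
  rw [hRdef] at h0
  simp only [Finsupp.add_apply, Finsupp.sub_apply, divisor_apply, Finsupp.single_eq_of_ne hQ] at h0
  refine ⟨fun hQP => ?_, fun hQP => ?_⟩
  · subst hQP
    rw [Finsupp.single_eq_same] at h0
    omega
  · rw [Finsupp.single_eq_of_ne hQP] at h0
    omega

omit hR in
theorem exists_sub_divisor {D₀ : Place k K →₀ ℤ} (h0 : 0 ≤ D₀) {M : ℤ}
    (hM : ∀ P, D₀ P ≠ 0 → (P.deg : ℤ) ≤ M - 1) (hM1 : 1 ≤ M) (hd : M ≤ ddeg D₀) :
    ∃ D : Place k K →₀ ℤ, 0 ≤ D ∧ D ≤ D₀ ∧ M ≤ ddeg D ∧ ddeg D ≤ 2 * M - 2 := by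
  obtain ⟨m, ⟨D, hD0, hD, hDm, hDM⟩, hmax⟩ := Int.exists_greatest_of_bdd
    (P := fun m => ∃ D : Place k K →₀ ℤ, 0 ≤ D ∧ D ≤ D₀ ∧ ddeg D = m ∧ m ≤ M - 1)
    ⟨M - 1, by rintro z ⟨D, -, -, -, h⟩; exact h⟩
    ⟨0, 0, le_refl _, h0, ddeg_zero, by omega⟩
  have hne : ∃ P, D P < D₀ P := by
    by_contra hc
    push Not at hc
    have : D = D₀ := le_antisymm hD hc
    rw [this] at hDm
    omega
  obtain ⟨P, hP⟩ := hne
  have hDP : (0 : ℤ) ≤ D P := hD0 P
  have hPd := hM P (by omega)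
  have hpos : (0 : ℤ) < P.deg := by exact_mod_cast P.deg_pos
  have hs : ddeg (D + Finsupp.single P 1) = m + P.deg := by
    rw [ddeg_add, ddeg_single, hDm]; ring
  have hle : D + Finsupp.single P 1 ≤ D₀ := by
    intro Q
    by_cases hQ : Q = P
    · subst hQ
      simp only [Finsupp.add_apply, Finsupp.single_eq_same]; omega
    · simp only [Finsupp.add_apply, Finsupp.single_eq_of_ne hQ, add_zero]; exact hD Q
  have hnn : 0 ≤ D + Finsupp.single P 1 := by
    refine add_nonneg hD0 ?_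
    intro Q
    by_cases hQ : Q = P
    · subst hQ; simp
    · rw [Finsupp.single_eq_of_ne hQ]; rfl
  refine ⟨D + Finsupp.single P 1, hnn, hle, ?_, by omega⟩
  by_contra hc
  push Not at hc
  have := hmax (m + P.deg) ⟨_, hnn, hle, hs, by omega⟩
  omega

/-- A function of `L n`, all of whose zeros are zeros of functions of `L (n - 1)`, is a product of
such functions and of their inverses. -/
theorem exists_factor (hg : 1 ≤ g) {n : ℤ} (hn : 3 * (I.deg : ℤ) + 3 * g - 2 ≤ n * I.deg)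
    {f : K} (hf0 : f ≠ 0) (hf : f ∈ L I n)
    (hz : ∀ P : Place k K, P ≠ I → 0 < P.ord f → Van I (n - 1) P) :
    ∃ u v s : K, u ≠ 0 ∧ v ≠ 0 ∧ s ≠ 0 ∧ u ∈ L I (n - 1) ∧ v ∈ L I (n - 1) ∧ s ∈ L I (n - 1) ∧
      f * s = u * v := by
  have hI : (0 : ℤ) < I.deg := by exact_mod_cast I.deg_pos
  have hn1 : 1 ≤ n := by
    by_contra hc
    push Not at hc
    have : n * I.deg ≤ 0 := mul_nonpos_of_nonpos_of_nonneg (by omega) hI.le
    omega
  by_cases hord : -(n - 1) ≤ I.ord f
  · refine ⟨f, 1, 1, hf0, one_ne_zero, one_ne_zero, ?_, one_mem_L I (by omega),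
      one_mem_L I (by omega), by ring⟩
    rw [mem_L I hf0]
    exact ⟨hord, ((mem_L I hf0).1 hf).2⟩
  have hordn : I.ord f = -n := by
    have := ((mem_L I hf0).1 hf).1
    omega
  set D₀ : Place k K →₀ ℤ := divisor k f + Finsupp.single I n with hD₀
  have hD₀nn : 0 ≤ D₀ := (mem_LL' hf0).1 hf
  have hD₀I : D₀ I = 0 := by
    rw [hD₀, Finsupp.add_apply, divisor_apply, hordn, Finsupp.single_eq_same]; ring
  have hD₀P : ∀ P, P ≠ I → D₀ P = P.ord f := by
    intro P hP
    rw [hD₀, Finsupp.add_apply, divisor_apply, Finsupp.single_eq_of_ne hP]; ring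
  have hdeg : ddeg D₀ = n * I.deg := by
    rw [hD₀, ddeg_add, ddeg_divisor, ddeg_single]; ring
  -- it suffices to split the divisor of zeros
  have main : ∀ D : Place k K →₀ ℤ, 0 ≤ D → D ≤ D₀ →
      (∃ u ∈ LL (Finsupp.single I (n - 1) - D), u ≠ 0) →
      (∃ v ∈ LL (Finsupp.single I (n - 1) - (D₀ - D)), v ≠ 0) →
      ∃ u v s : K, u ≠ 0 ∧ v ≠ 0 ∧ s ≠ 0 ∧ u ∈ L I (n - 1) ∧ v ∈ L I (n - 1) ∧
        s ∈ L I (n - 1) ∧ f * s = u * v := by
    rintro D hD hD' ⟨u, hu, hu0⟩ ⟨v, hv, hv0⟩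
    refine ⟨u, v, u * v / f, hu0, hv0, div_ne_zero (mul_ne_zero hu0 hv0) hf0,
      LL_mono (sub_le_self _ hD) hu, LL_mono (sub_le_self _ (sub_nonneg.2 hD')) hv, ?_,
      by field_simp⟩
    have hu1 := (mem_LL' hu0).1 hu
    have hv1 := (mem_LL' hv0).1 hv
    apply L_mono I (show n - 2 ≤ n - 1 by omega)
    unfold L
    rw [mem_LL' (div_ne_zero (mul_ne_zero hu0 hv0) hf0), div_eq_mul_inv,
      divisor_mul (mul_ne_zero hu0 hv0) (inv_ne_zero hf0), divisor_mul hu0 hv0, divisor_inv]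
    have e1 : divisor k u + divisor k v + -divisor k f + Finsupp.single I (n - 2) =
        (divisor k u + (Finsupp.single I (n - 1) - D)) +
        (divisor k v + (Finsupp.single I (n - 1) - (D₀ - D))) := by
      rw [hD₀, show n - 2 = (n - 1) + (n - 1) + (-n) by ring, Finsupp.single_add,
        Finsupp.single_add, Finsupp.single_neg]
      abel
    rw [e1]
    exact add_nonneg hu1 hv1
  by_cases hbig : ∃ P : Place k K, D₀ P ≠ 0 ∧ (I.deg : ℤ) + g ≤ P.deg
  · obtain ⟨P, hP0, hPdeg⟩ := hbig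
    have hPI : P ≠ I := by rintro rfl; exact hP0 hD₀I
    have hPord : 0 < P.ord f := by
      have h1 := hD₀nn P
      rw [hD₀P P hPI] at hP0 h1
      simp only [Finsupp.coe_zero, Pi.zero_apply] at h1
      omega
    refine main (Finsupp.single P 1) ?_ ?_ ?_ ?_
    · intro Q
      by_cases hQ : Q = P
      · subst hQ; simp
      · rw [Finsupp.single_eq_of_ne hQ]; rfl
    · intro Q
      by_cases hQ : Q = P
      · subst hQ; rw [Finsupp.single_eq_same, hD₀P Q hPI]; omega
      · rw [Finsupp.single_eq_of_ne hQ]; exact hD₀nn Q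
    · obtain ⟨u, hu0, hu, hu1⟩ := hz P hPI hPord
      exact ⟨u, (mem_LL_sub I hPI hu0).2 ⟨hu, hu1⟩, hu0⟩
    · apply exists_ne_zero (k := k) (K := K) hR
      rw [ddeg_sub, ddeg_sub, hdeg, ddeg_single, ddeg_single]
      linarith
  · push Not at hbig
    obtain ⟨D, hD, hD', hD1, hD2⟩ := exists_sub_divisor (k := k) (K := K) hD₀nn
      (M := (I.deg : ℤ) + g) (fun P hP => by have := hbig P hP; omega) (by omega) (by omega)
    refine main D hD hD' ?_ ?_
    · apply exists_ne_zero (k := k) (K := K) hR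
      rw [ddeg_sub, ddeg_single]
      linarith
    · apply exists_ne_zero (k := k) (K := K) hR
      rw [ddeg_sub, ddeg_sub, hdeg, ddeg_single]
      linarith

end RR

end Pool.Agent.KS6_19.CG
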