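import Pool.Agent.KS6_19.CG.Key

/-!
One step of the filtration by the pole order at `I`.
-/

set_option autoImplicit false
set_option linter.unusedSectionVars false

namespace Pool.Agent.KS6_19.CG

open FF Module Function Pool.Agent.TH826.MK

variable {k K : Type*} [Field k] [Field K] [Algebra k K] [CharZero k] [IsFF k K]
variable (I : Place k K)

/-- The places of level exactly `n`. -/
structure Lev (n : ℤ) (P : Place k K) : Prop where
  ne : P ≠ I
  van : Van I n P
  not : ¬ Van I (n - 1) P

section abstract

/-- The Steinberg relation for `x + y = w`. -/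
theorem symb_add {r : ℕ} (a : Fin r → Kˣ) {i j : Fin r} (hij : i ≠ j) (x y w : Kˣ)
    (h : (x : K) + y = w) :
    symb (update (update a i x) j y) =
      symb (update (update a i x) j w) + symb (update (update a i w) j y) := by
  have h0 : symb (update (update a i (x / w)) j (y / w)) = 0 := by
    refine symb_eq_zero' _ hij ?_
    rw [update_of_ne hij, update_self, update_self]
    simp only [Units.val_div_eq_div_val]
    rw [← add_div, h, div_self w.ne_zero]
  have hww : symb (update (update a i w) j w) = 0 := by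
    refine symb_self _ hij ?_
    rw [update_of_ne hij, update_self, update_self]
  have c1 : ∀ z z' : Kˣ, symb (update (update a i (z / w)) j z') =
      symb (update (update a i z) j z') - symb (update (update a i w) j z') := by
    intro z z'
    have e : ∀ t : Kˣ, update (update a i t) j z' = update (update a j z') i t :=
      fun t => update_comm hij t z' a
    rw [e, e, e, symb_update_div]
  rw [symb_update_div, c1, c1, hww] at h0
  have h1 : symb (update (update a i x) j y) - symb (update (update a i w) j y) -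
      symb (update (update a i x) j w) = 0 := by
    rw [← h0]; abel
  rw [sub_sub, sub_eq_zero] at h1
  rw [h1, add_comm]

/-- Expansion of a symbol of two functions with a combination of smaller degree. -/
theorem symb_expand {r : ℕ} (a : Fin r → Kˣ) {i j : Fin r} (hij : i ≠ j) (f f' x y w : Kˣ)
    (h : (x : K) * f + y * f' = w) :
    symb (update (update a i f) j f') =
      symb (update (update a i x) j w) + symb (update (update a i f) j w) +
      symb (update (update a i w) j y) + symb (update (update a i w) j f') -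
      symb (update (update a i x) j y) - symb (update (update a i x) j f') -
      symb (update (update a i f) j y) := by
  have h0 := symb_add a hij (x * f) (y * f') w (by simpa using h)
  have c1 : ∀ z z' t : Kˣ, symb (update (update a i (z * z')) j t) =
      symb (update (update a i z) j t) + symb (update (update a i z') j t) := by
    intro z z' t
    have e : ∀ v : Kˣ, update (update a i v) j t = update (update a j t) i v :=
      fun v => update_comm hij v t a
    rw [e, e, e, symb_update_mul]
  rw [symb_update_mul, symb_update_mul, c1, c1, c1] at h0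
  have h1 : symb (update (update a i f) j f') =
      (symb (update (update a i x) j y) + symb (update (update a i f) j y) +
      (symb (update (update a i x) j f') + symb (update (update a i f) j f'))) -
      symb (update (update a i x) j y) - symb (update (update a i x) j f') -
      symb (update (update a i f) j y) := by abel
  rw [h1, h0]
  abel

end abstract

section Step

variable {g : ℤ} (hR : ∀ D : Place k K →₀ ℤ, ddeg D + 1 - g ≤ ell D) (hg : 1 ≤ g) {n : ℤ}
  (hn : 9 * g + 7 * (I.deg : ℤ) - 9 ≤ 2 * (n * I.deg))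

theorem deg_pos' : (0 : ℤ) < I.deg := by exact_mod_cast I.deg_pos

omit [CharZero k] [IsFF k K] in
theorem threshold {g n : ℤ} {δ : ℕ} (hδ : (0 : ℤ) < δ) (hg : 1 ≤ g)
    (hn : 9 * g + 7 * (δ : ℤ) - 9 ≤ 2 * (n * δ)) : 3 * (δ : ℤ) + 3 * g - 2 ≤ n * δ := by
  generalize n * (δ : ℤ) = A at *
  omega

include hR hg hn

theorem Lev.deg_ge {P : Place k K} (h : Lev I n P) : (n - 1) * I.deg + 1 - g ≤ P.deg :=
  deg_ge_of_not_Van I hR h.ne h.not

omit hR hg hn in
theorem Lev.deg_le {P : Place k K} (h : Lev I n P) : (P.deg : ℤ) ≤ n * I.deg :=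
  deg_le_of_Van I h.ne h.van

theorem Lev.nums {P : Place k K} (h : Lev I n P) :
    ∃ e i j q : ℤ, Nums n g I.deg P.deg e i j q :=
  exists_nums (deg_pos' I) hg hn (Lev.deg_ge I hR hg hn h) (Lev.deg_le I h)

theorem Lev.ord_F {P Q : Place k K} (hP : Lev I n P) (hQ : Lev I n Q) {F : Kˣ}
    (hF : (F : K) ∈ L I n) (hFP : 0 < P.ord (F : K)) :
    (Q = P → Q.ord (F : K) = 1) ∧ (Q ≠ P → Q.ord (F : K) = 0) := by
  apply ord_of_mem_L_of_deg I hP.ne hQ.ne F.ne_zero hF hFP
  have h1 := Lev.deg_ge I hR hg hn hP
  have h2 := Lev.deg_ge I hR hg hn hQ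
  have h3 := deg_pos' I
  have h4 := threshold h3 hg hn
  linarith

/-- The generators of the group of functions of `L n`. -/
def Gen (n : ℤ) (F : Place k K → Kˣ) : Set Kˣ :=
  {u | (u : K) ∈ L I (n - 1)} ∪ {u | ∃ P, Lev I n P ∧ u = F P}

theorem mem_closure_Gen {F : Place k K → Kˣ} (hF : ∀ P, Lev I n P → (F P : K) ∈ L I n)
    (hFP : ∀ P, Lev I n P → 0 < P.ord (F P : K)) {f : Kˣ} (hf : (f : K) ∈ L I n) :
    f ∈ Subgroup.closure (Gen I n F) := by
  have hδ := deg_pos' I
  by_cases h : ∃ P, Lev I n P ∧ 0 < P.ord (f : K)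
  · obtain ⟨P, hP, hfP⟩ := h
    obtain ⟨e, i, j, q, hN⟩ := Lev.nums I hR hg hn hP
    obtain ⟨s, u, hs0, hu0, hs, hu, hrel⟩ := exists_quot I hR hP.ne (F P).ne_zero (hF P hP)
      (hFP P hP) f.ne_zero hf hfP hN.e1
    have he := hN.e2
    have e1 : f = F P * Units.mk0 s hs0 / Units.mk0 u hu0 := by
      rw [eq_div_iff_mul_eq']
      ext
      simpa using hrel
    rw [e1]
    refine Subgroup.div_mem _ (Subgroup.mul_mem _ ?_ ?_) ?_
    · exact Subgroup.subset_closure (Or.inr ⟨P, hP, rfl⟩)
    · exact Subgroup.subset_closure (Or.inl (L_mono I (by omega) hs))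
    · exact Subgroup.subset_closure (Or.inl (L_mono I he hu))
  · push Not at h
    obtain ⟨u, v, s, hu0, hv0, hs0, hu, hv, hs, hrel⟩ := exists_factor I hR hg (n := n)
      (threshold hδ hg hn) f.ne_zero hf (by
        intro P hPI hP
        by_contra hc
        exact absurd hP (not_lt.2 (h P ⟨hPI, ⟨f, f.ne_zero, hf, hP⟩, hc⟩)))
    have e1 : f = Units.mk0 u hu0 * Units.mk0 v hv0 / Units.mk0 s hs0 := by
      rw [eq_div_iff_mul_eq']
      ext
      simpa using hrel
    rw [e1]
    refine Subgroup.div_mem _ (Subgroup.mul_mem _ ?_ ?_) ?_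
    · exact Subgroup.subset_closure (Or.inl hu)
    · exact Subgroup.subset_closure (Or.inl hv)
    · exact Subgroup.subset_closure (Or.inl hs)

/-- The symbols with exactly one entry of pole order `n`. -/
noncomputable def W1 (n : ℤ) (F : Place k K → Kˣ) (r : ℕ) : Submodule ℚ (KQ K (r + 1)) :=
  U I (n - 1) (r + 1) ⊔ Submodule.span ℚ {z | ∃ (P : Place k K) (b : Fin r → Kˣ), Lev I n P ∧
    (∀ l, (b l : K) ∈ L I (n - 1)) ∧ z = symb (Fin.cons (F P) b : Fin (r + 1) → Kˣ)}

theorem comb {F : Place k K → Kˣ} (hF : ∀ P, Lev I n P → (F P : K) ∈ L I n)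
    (hFP : ∀ P, Lev I n P → 0 < P.ord (F P : K)) {P Q : Place k K} (hP : Lev I n P)
    (hQ : Lev I n Q) (hPQ : P ≠ Q) :
    ∃ x y w : Kˣ, (x : K) ∈ L I (n - 1) ∧ (y : K) ∈ L I (n - 1) ∧ (w : K) ∈ L I (n - 1) ∧
      (x : K) * F P + y * F Q = w := by
  have hδ := deg_pos' I
  -- the number `c`
  obtain ⟨c, hc1, hc2⟩ : ∃ c : ℤ, (I.deg : ℤ) + 2 * g - 1 ≤ c * I.deg ∧
      c * I.deg ≤ 2 * I.deg + 2 * g - 2 := by
    refine ⟨-((-((I.deg : ℤ) + 2 * g - 1)) / I.deg), ?_, ?_⟩
    · have := Int.ediv_mul_le (-((I.deg : ℤ) + 2 * g - 1)) hδ.ne'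
      linarith
    · have := Int.lt_ediv_add_one_mul_self (-((I.deg : ℤ) + 2 * g - 1)) hδ
      linarith
  have hc0 : 0 < c := by
    by_contra hc
    have : c * (I.deg : ℤ) ≤ 0 := mul_nonpos_of_nonpos_of_nonneg (by omega) hδ.le
    omega
  have hcn : c < n := by
    apply lt_of_mul_lt_mul_right _ hδ.le
    have := threshold hδ hg hn
    linarith
  obtain ⟨a, b, hab, ha, hb, hw⟩ := exists_comb I hR (hF P hP) (hF Q hQ) (c := c) (by omega)
    (by linarith)
  have ha' : a ∈ L I (n - 1) := L_mono I (by omega) ha
  have hb' : b ∈ L I (n - 1) := L_mono I (by omega) hb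
  have hPF := Lev.ord_F I hR hg hn hP hP (hF P hP) (hFP P hP)
  have hPQF := Lev.ord_F I hR hg hn hP hQ (hF P hP) (hFP P hP)
  have hQPF := Lev.ord_F I hR hg hn hQ hP (hF Q hQ) (hFP Q hQ)
  have hQF := Lev.ord_F I hR hg hn hQ hQ (hF Q hQ) (hFP Q hQ)
  -- `a ≠ 0`
  have ha0 : a ≠ 0 := by
    rintro rfl
    have hb0 : b ≠ 0 := by simpa using hab
    rw [zero_mul, zero_add] at hw
    have h1 := ord_eq_zero_of_not_Van I hQ.ne hQ.not (mul_ne_zero hb0 (F Q).ne_zero) hw
    have h2 := ord_eq_zero_of_not_Van I hQ.ne hQ.not hb0 hb'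
    rw [Q.ord_mul hb0 (F Q).ne_zero, h2, hQF.1 rfl] at h1
    omega
  have hb0 : b ≠ 0 := by
    rintro rfl
    rw [zero_mul, add_zero] at hw
    have h1 := ord_eq_zero_of_not_Van I hP.ne hP.not (mul_ne_zero ha0 (F P).ne_zero) hw
    have h2 := ord_eq_zero_of_not_Van I hP.ne hP.not ha0 ha'
    rw [P.ord_mul ha0 (F P).ne_zero, h2, hPF.1 rfl] at h1
    omega
  have hw0 : a * F P + b * F Q ≠ 0 := by
    intro h
    have h1 : a * F P = -(b * F Q) := eq_neg_of_add_eq_zero_left h
    have h2 := congrArg P.ord h1
    rw [P.ord_neg, P.ord_mul ha0 (F P).ne_zero, P.ord_mul hb0 (F Q).ne_zero,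
      ord_eq_zero_of_not_Van I hP.ne hP.not ha0 ha',
      ord_eq_zero_of_not_Van I hP.ne hP.not hb0 hb', hPF.1 rfl, hQPF.2 hPQ] at h2
    omega
  exact ⟨Units.mk0 a ha0, Units.mk0 b hb0, Units.mk0 _ hw0, ha', hb', hw, rfl⟩

theorem U_le_W1 {F : Place k K → Kˣ} (hF : ∀ P, Lev I n P → (F P : K) ∈ L I n)
    (hFP : ∀ P, Lev I n P → 0 < P.ord (F P : K)) (r : ℕ) : U I n (r + 1) ≤ W1 I n F r := by
  classical
  -- symbols of generators, by induction on the number of entries which are not in `L (n - 1)`
  have key : ∀ (c : ℕ) (a : Fin (r + 1) → Kˣ), (∀ i, a i ∈ Gen I n F) →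
      (Finset.univ.filter fun i => (a i : K) ∉ L I (n - 1)).card = c → symb a ∈ W1 I n F r := by
    intro c
    induction c using Nat.strong_induction_on with
    | _ c ih =>
    intro a ha hc
    rcases Nat.lt_or_ge c 2 with hc2 | hc2
    · rcases Nat.lt_or_ge c 1 with hc1 | hc1
      · -- no bad entry
        have hc0 : c = 0 := by omega
        rw [hc0, Finset.card_eq_zero, Finset.filter_eq_empty_iff] at hc
        refine Submodule.mem_sup_left (Submodule.subset_span ⟨a, fun i => ?_, rfl⟩)
        have := hc (Finset.mem_univ i)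
        push Not at this
        exact this
      · -- one bad entry
        have hc0 : c = 1 := by omega
        rw [hc0, Finset.card_eq_one] at hc
        obtain ⟨i, hi⟩ := hc
        have hiff : ∀ l, (a l : K) ∉ L I (n - 1) ↔ l = i := by
          intro l
          have : l ∈ (Finset.univ.filter fun i => (a i : K) ∉ L I (n - 1)) ↔ l ∈ ({i} : Finset _) := by
            rw [hi]
          simpa using this
        obtain ⟨P, hP, haP⟩ := (ha i).resolve_left ((hiff i).2 rfl)
        have hgood : ∀ l, l ≠ i → (a l : K) ∈ L I (n - 1) := by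
          intro l hl
          by_contra h
          exact hl ((hiff l).1 h)
        -- move the bad entry to the front
        have hsw : ∃ ε : ℚ, symb a = ε • symb (a ∘ Equiv.swap 0 i) := by
          by_cases h0 : (0 : Fin (r + 1)) = i
          · refine ⟨1, ?_⟩
            rw [← h0, Equiv.swap_self, one_smul]; rfl
          · refine ⟨-1, ?_⟩
            rw [symb_comp_swap a h0]; simp
        obtain ⟨ε, hε⟩ := hsw
        rw [hε]
        apply Submodule.smul_mem
        apply Submodule.mem_sup_right
        apply Submodule.subset_span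
        refine ⟨P, Fin.tail (a ∘ Equiv.swap 0 i), hP, ?_, ?_⟩
        · intro l
          show ((a (Equiv.swap 0 i l.succ) : Kˣ) : K) ∈ _
          apply hgood
          intro h
          have h1 : l.succ = Equiv.swap 0 i i := Equiv.swap_apply_eq_iff.1 h
          rw [Equiv.swap_apply_right] at h1
          exact Fin.succ_ne_zero l h1
        · congr 1
          have e0 : F P = (a ∘ Equiv.swap 0 i) 0 := by
            show F P = a (Equiv.swap 0 i 0)
            rw [Equiv.swap_apply_left, haP]
          rw [e0, Fin.cons_self_tail]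
    · -- at least two bad entries
      have h1 : 1 < (Finset.univ.filter fun i => (a i : K) ∉ L I (n - 1)).card := by omega
      obtain ⟨i, hi, j, hj, hij⟩ := Finset.one_lt_card.1 h1
      simp only [Finset.mem_filter, Finset.mem_univ, true_and] at hi hj
      obtain ⟨P, hP, haP⟩ := (ha i).resolve_left hi
      obtain ⟨Q, hQ, haQ⟩ := (ha j).resolve_left hj
      by_cases hPQ : P = Q
      · rw [symb_self a hij (by rw [haP, haQ, hPQ])]
        exact zero_mem _
      obtain ⟨x, y, w, hx, hy, hw, hrel⟩ := comb I hR hg hn hF hFP hP hQ hPQ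
      have e0 : update (update a i (F P)) j (F Q) = a := by
        rw [← haP, update_eq_self, ← haQ, update_eq_self]
      have small : ∀ z z' : Kˣ, ((z : K) ∈ L I (n - 1) ∧ z' ∈ Gen I n F) ∨
          ((z' : K) ∈ L I (n - 1) ∧ z ∈ Gen I n F) →
          symb (update (update a i z) j z') ∈ W1 I n F r := by
        intro z z' hz
        have hzG : z ∈ Gen I n F := by
          rcases hz with hz | hz
          · exact Or.inl hz.1
          · exact hz.2
        have hzG' : z' ∈ Gen I n F := by
          rcases hz with hz | hz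
          · exact hz.2
          · exact Or.inl hz.1
        refine ih _ ?_ _ ?_ rfl
        · rw [← hc]
          apply Finset.card_lt_card
          rw [Finset.ssubset_iff_of_subset]
          · rcases hz with hz | hz
            · refine ⟨i, by simpa using hi, ?_⟩
              simp only [Finset.mem_filter, Finset.mem_univ, true_and, not_not]
              rw [update_of_ne hij, update_self]; exact hz.1
            · refine ⟨j, by simpa using hj, ?_⟩
              simp only [Finset.mem_filter, Finset.mem_univ, true_and, not_not]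
              rw [update_self]; exact hz.1
          · intro l hl
            simp only [Finset.mem_filter, Finset.mem_univ, true_and] at hl ⊢
            by_cases hlj : l = j
            · rw [hlj]; exact hj
            by_cases hli : l = i
            · rw [hli]; exact hi
            rwa [update_of_ne hlj, update_of_ne hli] at hl
        · intro l
          by_cases hlj : l = j
          · rw [hlj, update_self]; exact hzG'
          rw [update_of_ne hlj]
          by_cases hli : l = i
          · rw [hli, update_self]; exact hzG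
          rw [update_of_ne hli]; exact ha l
      have hFPG : F P ∈ Gen I n F := Or.inr ⟨P, hP, rfl⟩
      have hFQG : F Q ∈ Gen I n F := Or.inr ⟨Q, hQ, rfl⟩
      rw [← e0, symb_expand a hij (F P) (F Q) x y w hrel]
      refine Submodule.sub_mem _ (Submodule.sub_mem _ (Submodule.sub_mem _ (Submodule.add_mem _
        (Submodule.add_mem _ (Submodule.add_mem _ ?_ ?_) ?_) ?_) ?_) ?_) ?_
      · exact small _ _ (Or.inl ⟨hx, Or.inl hw⟩)
      · exact small _ _ (Or.inr ⟨hw, hFPG⟩)
      · exact small _ _ (Or.inl ⟨hw, Or.inl hy⟩)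
      · exact small _ _ (Or.inl ⟨hw, hFQG⟩)
      · exact small _ _ (Or.inl ⟨hx, Or.inl hy⟩)
      · exact small _ _ (Or.inl ⟨hx, hFQG⟩)
      · exact small _ _ (Or.inr ⟨hy, hFPG⟩)
  unfold U
  rw [Submodule.span_le]
  rintro z ⟨a, ha, rfl⟩
  exact symb_mem_of_closure (W1 I n F r) (fun _ => Gen I n F) (fun b hb => key _ b hb rfl) a
    (fun i => mem_closure_Gen I hR hg hn hF hFP (ha i))

end Step

end Pool.Agent.KS6_19.CG
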