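import Pool.Agent.KS6_19.CG.Main

/-!
Surjectivity of the residue maps at the places which are not special.
-/

set_option autoImplicit false
set_option linter.unusedSectionVars false

namespace Pool.Agent.KS6_19.CG

open FF Module Function Pool.Agent.TH826.MK

variable {k K : Type*} [Field k] [Field K] [Algebra k K] [CharZero k] [IsFF k K]
variable (I : Place k K)

theorem finite_res {r : ℕ} (α : KQ K (r + 1)) : {P : Place k K | res P r α ≠ 0}.Finite := by
  let W : Submodule ℚ (KQ K (r + 1)) :=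
    { carrier := {α | {P : Place k K | res P r α ≠ 0}.Finite}
      add_mem' := by
        intro a b ha hb
        refine (ha.union hb).subset ?_
        intro P hP
        by_contra hc
        simp only [Set.mem_union, Set.mem_ofPred_eq, not_or, not_not] at hc
        exact hP (by rw [map_add, hc.1, hc.2, add_zero])
      zero_mem' := by
        show {P : Place k K | res P r (0 : KQ K (r + 1)) ≠ 0}.Finite
        simp
      smul_mem' := by
        intro c a ha
        refine Set.Finite.subset ha ?_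
        intro P hP h
        exact hP (by rw [map_smul, h, smul_zero]) }
  refine KQ_span W (fun a => ?_) α
  show {P : Place k K | res P r (symb a) ≠ 0}.Finite
  have h : (⋃ i, {P : Place k K | P.ord (a i : K) ≠ 0}).Finite :=
    Set.finite_iUnion fun i => finite_support (a i : K)
  refine h.subset ?_
  intro P hP
  by_contra hc
  simp only [Set.mem_iUnion, Set.mem_ofPred_eq, not_exists, not_not] at hc
  exact hP (res_symb_of_units P a hc)

/-- The places of degree at least `g + deg I` which are not a zero of a function of small degree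
with the only pole `I`. -/
structure General (g : ℤ) (P : Place k K) : Prop where
  ne : P ≠ I
  deg : g + (I.deg : ℤ) ≤ P.deg
  van : ∀ n : ℤ, Van I n P → 2 * g + 2 * (I.deg : ℤ) - 1 ≤ 2 * (n * I.deg) - P.deg

variable {g : ℤ} (hR : ∀ D : Place k K →₀ ℤ, ddeg D + 1 - g ≤ ell D)

include hR

theorem exists_level {P : Place k K} (hP : P ≠ I) :
    ∃ n : ℕ, Van I n P ∧ ¬ Van I ((n : ℤ) - 1) P := by
  have hδ := deg_pos' I
  have hex : ∃ n : ℤ, Van I n P := by
    refine ⟨P.deg + |g|, ?_⟩
    have h1 := le_abs_self g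
    have h2 := abs_nonneg g
    obtain ⟨f, hf, hf0⟩ := exists_ne_zero (k := k) (K := K) hR
      (D := Finsupp.single I ((P.deg : ℤ) + |g|) - Finsupp.single P 1) (by
        rw [ddeg_sub, ddeg_single, ddeg_single]
        nlinarith)
    have := (mem_LL_sub I hP hf0).1 hf
    exact ⟨f, hf0, this.1, this.2⟩
  have hbd : ∀ z : ℤ, Van I z P → 0 ≤ z := fun z hz => by
    by_contra hc
    push Not at hc
    have h1 := deg_le_of_Van I hP hz
    have : z * (I.deg : ℤ) ≤ 0 := mul_nonpos_of_nonpos_of_nonneg hc.le hδ.le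
    have := P.deg_pos
    omega
  obtain ⟨n, hn, hmin⟩ := Int.exists_least_of_bdd (P := fun n => Van I n P) ⟨0, hbd⟩ hex
  have h0 := hbd n hn
  refine ⟨n.toNat, ?_, fun h => ?_⟩
  · rwa [Int.toNat_of_nonneg h0]
  · rw [Int.toNat_of_nonneg h0] at h
    have := hmin _ h
    omega

theorem exists_res_symb {P : Place k K} (hP : General I g P) {n : ℤ} (hn : Van I n P)
    (hnot : ¬ Van I (n - 1) P) {r : ℕ} (c : Fin r → P.RFˣ) :
    ∃ α : KQ K (r + 1), res P r α = symb c ∧
      ∀ Q : Place k K, General I g Q → Q ≠ P → ¬ Van I (n - 1) Q → res Q r α = 0 := by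
  have hδ := deg_pos' I
  have h1 := deg_ge_of_not_Van I hR hP.ne hnot
  have hv := hP.van n hn
  obtain ⟨f, hf0, hf, hfP⟩ := hn
  have hford : ∀ Q : Place k K, General I g Q →
      (Q = P → Q.ord f = 1) ∧ (Q ≠ P → Q.ord f = 0) := by
    intro Q hQ
    apply ord_of_mem_L_of_deg I hP.ne hQ.ne hf0 hf hfP
    have := hQ.deg
    have e : n * (I.deg : ℤ) = (n - 1) * I.deg + I.deg := by ring
    omega
  -- the lifts
  have hlift : ∀ l, ∃ u v : K, u ≠ 0 ∧ v ≠ 0 ∧ u ∈ L I (n - 1) ∧ v ∈ L I (n - 1) ∧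
      P.red u = c l * P.red v := fun l =>
    exists_lift I hR hP.ne hnot le_rfl le_rfl (by linarith) (c l)
  choose u v hu0 hv0 hu hv huv using hlift
  have hz : ∀ {w : K}, w ≠ 0 → w ∈ L I (n - 1) → ∀ Q : Place k K, Q ≠ I → ¬ Van I (n - 1) Q →
      Q.ord w = 0 := fun hw0 hw Q hQ hQn => ord_eq_zero_of_not_Van I hQ hQn hw0 hw
  let b : Fin r → Kˣ := fun l => Units.mk0 (u l) (hu0 l) / Units.mk0 (v l) (hv0 l)
  have hb : ∀ Q : Place k K, Q ≠ I → ¬ Van I (n - 1) Q → ∀ l, Q.ord (b l : K) = 0 := by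
    intro Q hQ hQn l
    simp only [b, Units.val_div_eq_div_val, Units.val_mk0]
    rw [Q.ord_div (hu0 l) (hv0 l), hz (hu0 l) (hu l) Q hQ hQn, hz (hv0 l) (hv l) Q hQ hQn]
    rfl
  refine ⟨symb (Fin.cons (Units.mk0 f hf0) b : Fin (r + 1) → Kˣ), ?_, ?_⟩
  · rw [res_symb_cons P _ _ (hb P hP.ne hnot), Units.val_mk0, (hford P hP).1 rfl, one_smul]
    congr 1
    funext l
    have e1 := hz (hu0 l) (hu l) P hP.ne hnot
    have e2 := hz (hv0 l) (hv l) P hP.ne hnot
    simp only [b]
    rw [map_div, div_eq_iff_eq_mul]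
    ext
    rw [Units.val_mul, bar_of_ord_eq_zero P (Units.mk0 (u l) (hu0 l)) e1,
      bar_of_ord_eq_zero P (Units.mk0 (v l) (hv0 l)) e2]
    exact huv l
  · intro Q hQ hQP hQn
    rw [res_symb_cons Q _ _ (hb Q hQ.ne hQn), Units.val_mk0, (hford Q hQ).2 hQP, zero_smul]

theorem exists_res_single {P : Place k K} (hP : General I g P) {n : ℤ} (hn : Van I n P)
    (hnot : ¬ Van I (n - 1) P) {r : ℕ} (c : KQ P.RF r) :
    ∃ α : KQ K (r + 1), res P r α = c ∧
      ∀ Q : Place k K, General I g Q → Q ≠ P → ¬ Van I (n - 1) Q → res Q r α = 0 := by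
  let W : Submodule ℚ (KQ P.RF r) :=
    { carrier := {c | ∃ α : KQ K (r + 1), res P r α = c ∧
        ∀ Q : Place k K, General I g Q → Q ≠ P → ¬ Van I (n - 1) Q → res Q r α = 0}
      add_mem' := by
        rintro a b ⟨α, hα, hα'⟩ ⟨β, hβ, hβ'⟩
        refine ⟨α + β, by rw [map_add, hα, hβ], fun Q h1 h2 h3 => ?_⟩
        rw [map_add, hα' Q h1 h2 h3, hβ' Q h1 h2 h3, add_zero]
      zero_mem' := ⟨0, map_zero _, fun Q _ _ _ => map_zero _⟩
      smul_mem' := by
        rintro q a ⟨α, hα, hα'⟩
        refine ⟨q • α, by rw [map_smul, hα], fun Q h1 h2 h3 => ?_⟩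
        rw [map_smul, hα' Q h1 h2 h3, smul_zero] }
  exact KQ_span W (fun a => exists_res_symb I hR hP hn hnot a) c

/-- **Surjectivity** of the residue maps at the general places. -/
theorem exists_res (r : ℕ) (s : Finset (Place k K)) (β : ∀ P : Place k K, KQ P.RF r)
    (hs : ∀ P ∈ s, General I g P) :
    ∃ α : KQ K (r + 1), (∀ P ∈ s, res P r α = β P) ∧
      ∀ P : Place k K, General I g P → P ∉ s → res P r α = 0 := by
  classical
  have main : ∀ M : ℕ, ∀ (s : Finset (Place k K)) (β : ∀ P : Place k K, KQ P.RF r),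
      (∀ P ∈ s, General I g P) → (∀ P ∈ s, Van I M P) →
      ∃ α : KQ K (r + 1), (∀ P ∈ s, res P r α = β P) ∧
        ∀ P : Place k K, General I g P → P ∉ s → res P r α = 0 := by
    intro M
    induction M with
    | zero =>
      intro s β h1 h2
      refine ⟨0, fun P hP => ?_, fun P _ _ => map_zero _⟩
      have h3 := deg_le_of_Van I (h1 P hP).ne (h2 P hP)
      have := P.deg_pos
      simp only [Nat.cast_zero, zero_mul] at h3
      omega
    | succ M ih =>
      intro s β h1 h2
      have hex : ∀ P : Place k K, ∃ α : KQ K (r + 1), (P ∈ s ∧ ¬ Van I M P) → (res P r α = β P ∧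
          ∀ Q : Place k K, General I g Q → Q ≠ P → ¬ Van I M Q → res Q r α = 0) := by
        intro P
        by_cases h : P ∈ s ∧ ¬ Van I M P
        · have e : ((M + 1 : ℕ) : ℤ) - 1 = M := by push_cast; ring
          obtain ⟨α, hα⟩ := exists_res_single I hR (h1 P h.1) (h2 P h.1) (by rw [e]; exact h.2)
            (β P)
          rw [e] at hα
          exact ⟨α, fun _ => hα⟩
        · exact ⟨0, fun h' => absurd h' h⟩
      choose A hA using hex
      let s₁ := s.filter fun P => ¬ Van I M P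
      let α₁ := ∑ P ∈ s₁, A P
      have hs₁ : ∀ P, P ∈ s₁ ↔ P ∈ s ∧ ¬ Van I M P := fun P => by simp [s₁]
      have hα₁ : ∀ Q : Place k K, General I g Q → ¬ Van I M Q →
          res Q r α₁ = if Q ∈ s₁ then β Q else 0 := by
        intro Q hQ hQd
        simp only [α₁, map_sum]
        by_cases hQs : Q ∈ s₁
        · rw [if_pos hQs, Finset.sum_eq_single_of_mem Q hQs]
          · exact (hA Q ((hs₁ Q).1 hQs)).1
          · intro P hP hPQ
            exact (hA P ((hs₁ P).1 hP)).2 Q hQ hPQ.symm hQd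
        · rw [if_neg hQs]
          refine Finset.sum_eq_zero fun P hP => ?_
          exact (hA P ((hs₁ P).1 hP)).2 Q hQ (fun h => hQs (h ▸ hP)) hQd
      let s₂ : Finset (Place k K) := ((finite_res α₁).toFinset ∪ s).filter fun P =>
        General I g P ∧ Van I M P
      have hs₂ : ∀ P, P ∈ s₂ ↔ (res P r α₁ ≠ 0 ∨ P ∈ s) ∧ General I g P ∧ Van I M P :=
        fun P => by simp [s₂]
      obtain ⟨α₂, hα₂, hα₂'⟩ := ih s₂ (fun P => (if P ∈ s then β P else 0) - res P r α₁)
        (fun P hP => ((hs₂ P).1 hP).2.1) (fun P hP => ((hs₂ P).1 hP).2.2)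
      have hall : ∀ P : Place k K, General I g P →
          res P r (α₁ + α₂) = if P ∈ s then β P else 0 := by
        intro P hPG
        rw [map_add]
        by_cases hPs₂ : P ∈ s₂
        · rw [hα₂ P hPs₂]; abel
        · rw [hα₂' P hPG hPs₂, add_zero]
          by_cases hPM : Van I M P
          · have : ¬ (res P r α₁ ≠ 0 ∨ P ∈ s) := fun h => hPs₂ ((hs₂ P).2 ⟨h, hPG, hPM⟩)
            push Not at this
            rw [this.1, if_neg this.2]
          · rw [hα₁ P hPG hPM]
            by_cases hPs : P ∈ s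
            · rw [if_pos hPs, if_pos ((hs₁ P).2 ⟨hPs, hPM⟩)]
            · rw [if_neg hPs, if_neg fun h => hPs ((hs₁ P).1 h).1]
      refine ⟨α₁ + α₂, fun P hP => ?_, fun P hPG hP => ?_⟩
      · rw [hall P (h1 P hP), if_pos hP]
      · rw [hall P hPG, if_neg hP]
  -- a bound for the levels
  have hlev : ∀ P : Place k K, ∃ n : ℕ, P ∈ s → Van I n P := by
    intro P
    by_cases h : P ∈ s
    · obtain ⟨n, hn, -⟩ := exists_level I hR (hs P h).ne
      exact ⟨n, fun _ => hn⟩
    · exact ⟨0, fun h' => absurd h' h⟩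
  choose N hN using hlev
  refine main (s.sup N) s β hs fun P hP => (hN P hP).mono ?_
  exact_mod_cast Finset.le_sup (f := N) hP

end Pool.Agent.KS6_19.CG
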