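import Pool.Agent.KS6_19.CG.Const

/-!
Symbols with one entry in `V`, one entry in `V'`, and constants.
-/

set_option autoImplicit false
set_option linter.unusedSectionVars false

namespace Pool.Agent.KS6_19.CG

open FF Module Function Pool.Agent.TH826.MK

variable {k K : Type*} [Field k] [Field K] [Algebra k K]

/-- The span of the symbols with constant entries, except for at most one entry in `V` and at most
one entry in `V'`. -/
noncomputable def Wt (V V' : Submodule k K) (r : ℕ) : Submodule ℚ (KQ K r) :=
  Submodule.span ℚ {z | ∃ (a : Fin r → Kˣ) (s t : Finset (Fin r)), s.card ≤ 1 ∧ t.card ≤ 1 ∧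
    (∀ i ∈ s, (a i : K) ∈ V) ∧ (∀ i ∈ t, (a i : K) ∈ V') ∧
    (∀ i, i ∉ s → i ∉ t → IsConst k (a i)) ∧ z = symb a}

/-- If any two elements of `V` have a nontrivial combination in `V'`, then `W 2 ≤ Wt`. -/
theorem Wm_two_le_Wt {V V' : Submodule k K}
    (hVV' : ∀ x ∈ V, ∀ y ∈ V, ∃ c d : k, (c ≠ 0 ∨ d ≠ 0) ∧
      algebraMap k K c * x + algebraMap k K d * y ∈ V') (r : ℕ) :
    Wm V r 2 ≤ Wt V V' r := by
  classical
  unfold Wm
  rw [Submodule.span_le]
  rintro z ⟨a, s, ha, hs, hsc, rfl⟩
  change symb a ∈ Wt V V' r
  rcases Nat.lt_or_ge s.card 2 with h2 | h2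
  · exact Submodule.subset_span ⟨a, s, ∅, by omega, by simp, fun i _ => ha i, by simp,
      fun i hi _ => hsc i hi, rfl⟩
  obtain ⟨i, j, hij, hsij⟩ := Finset.card_eq_two.1 (le_antisymm hs h2)
  have hout : ∀ l, l ≠ i → l ≠ j → IsConst k (a l) := by
    intro l hi hj
    refine hsc l ?_
    rw [hsij]
    simp [hi, hj]
  -- symbols with prescribed entries at `i` and `j`
  have mem1 : ∀ z z' : Kˣ, (z : K) ∈ V → (z' : K) ∈ V' →
      symb (update (update a i z) j z') ∈ Wt V V' r := by
    intro z z' hz hz'
    refine Submodule.subset_span ⟨_, {i}, {j}, by simp, by simp, ?_, ?_, ?_, rfl⟩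
    · intro l hl
      rw [Finset.mem_singleton] at hl
      rw [hl, update_of_ne hij, update_self]
      exact hz
    · intro l hl
      rw [Finset.mem_singleton] at hl
      rw [hl, update_self]
      exact hz'
    · intro l hi hj
      rw [Finset.mem_singleton] at hi hj
      rw [update_of_ne hj, update_of_ne hi]
      exact hout l hi hj
  have mem2 : ∀ z z' : Kˣ, (z : K) ∈ V' → (z' : K) ∈ V →
      symb (update (update a i z) j z') ∈ Wt V V' r := by
    intro z z' hz hz'
    refine Submodule.subset_span ⟨_, {j}, {i}, by simp, by simp, ?_, ?_, ?_, rfl⟩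
    · intro l hl
      rw [Finset.mem_singleton] at hl
      rw [hl, update_self]
      exact hz'
    · intro l hl
      rw [Finset.mem_singleton] at hl
      rw [hl, update_of_ne hij, update_self]
      exact hz
    · intro l hj hi
      rw [Finset.mem_singleton] at hi hj
      rw [update_of_ne hj, update_of_ne hi]
      exact hout l hi hj
  have mem3 : ∀ z z' : Kˣ, IsConst k z → (z' : K) ∈ V →
      symb (update (update a i z) j z') ∈ Wt V V' r := by
    intro z z' hz hz'
    refine Submodule.subset_span ⟨_, {j}, ∅, by simp, by simp, ?_, by simp, ?_, rfl⟩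
    · intro l hl
      rw [Finset.mem_singleton] at hl
      rw [hl, update_self]
      exact hz'
    · intro l hj _
      rw [Finset.mem_singleton] at hj
      rw [update_of_ne hj]
      by_cases hi : l = i
      · rw [hi, update_self]; exact hz
      · rw [update_of_ne hi]; exact hout l hi hj
  have mem4 : ∀ z z' : Kˣ, (z : K) ∈ V → IsConst k z' →
      symb (update (update a i z) j z') ∈ Wt V V' r := by
    intro z z' hz hz'
    refine Submodule.subset_span ⟨_, {i}, ∅, by simp, by simp, ?_, by simp, ?_, rfl⟩
    · intro l hl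
      rw [Finset.mem_singleton] at hl
      rw [hl, update_of_ne hij, update_self]
      exact hz
    · intro l hi _
      rw [Finset.mem_singleton] at hi
      by_cases hj : l = j
      · rw [hj, update_self]; exact hz'
      · rw [update_of_ne hj, update_of_ne hi]; exact hout l hi hj
  have mem5 : ∀ z z' : Kˣ, IsConst k z → (z' : K) ∈ V' →
      symb (update (update a i z) j z') ∈ Wt V V' r := by
    intro z z' hz hz'
    refine Submodule.subset_span ⟨_, ∅, {j}, by simp, by simp, by simp, ?_, ?_, rfl⟩
    · intro l hl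
      rw [Finset.mem_singleton] at hl
      rw [hl, update_self]
      exact hz'
    · intro l _ hj
      rw [Finset.mem_singleton] at hj
      rw [update_of_ne hj]
      by_cases hi : l = i
      · rw [hi, update_self]; exact hz
      · rw [update_of_ne hi]; exact hout l hi hj
  have mem6 : ∀ z z' : Kˣ, (z : K) ∈ V' → IsConst k z' →
      symb (update (update a i z) j z') ∈ Wt V V' r := by
    intro z z' hz hz'
    refine Submodule.subset_span ⟨_, ∅, {i}, by simp, by simp, by simp, ?_, ?_, rfl⟩
    · intro l hl
      rw [Finset.mem_singleton] at hl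
      rw [hl, update_of_ne hij, update_self]
      exact hz
    · intro l _ hi
      rw [Finset.mem_singleton] at hi
      by_cases hj : l = j
      · rw [hj, update_self]; exact hz'
      · rw [update_of_ne hj, update_of_ne hi]; exact hout l hi hj
  have mem7 : ∀ z z' : Kˣ, IsConst k z → IsConst k z' →
      symb (update (update a i z) j z') ∈ Wt V V' r := by
    intro z z' hz hz'
    refine Submodule.subset_span ⟨_, ∅, ∅, by simp, by simp, by simp, by simp, ?_, rfl⟩
    intro l _ _
    by_cases hj : l = j
    · rw [hj, update_self]; exact hz'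
    · rw [update_of_ne hj]
      by_cases hi : l = i
      · rw [hi, update_self]; exact hz
      · rw [update_of_ne hi]; exact hout l hi hj
  have e0 : update (update a i (a i)) j (a j) = a := by rw [update_eq_self, update_eq_self]
  obtain ⟨c, d, hcd, hw⟩ := hVV' _ (ha i) _ (ha j)
  by_cases hc : c = 0
  · have hd : d ≠ 0 := hcd.resolve_left (not_not.2 hc)
    rw [hc, map_zero, zero_mul, zero_add, ← Algebra.smul_def] at hw
    have : (a j : K) ∈ V' := (V'.smul_mem_iff hd).1 hw
    rw [← e0]
    exact mem1 _ _ (ha i) this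
  by_cases hd : d = 0
  · rw [hd, map_zero, zero_mul, add_zero, ← Algebra.smul_def] at hw
    have : (a i : K) ∈ V' := (V'.smul_mem_iff hc).1 hw
    rw [← e0]
    exact mem2 _ _ this (ha j)
  have kc := isConst_cu (K := K) c hc
  have kd := isConst_cu (K := K) d hd
  by_cases hw0 : algebraMap k K c * a i + algebraMap k K d * a j = 0
  · have hd' : algebraMap k K d ≠ 0 := by simpa using hd
    have hcd' : -(c / d) ≠ 0 := neg_ne_zero.2 (div_ne_zero hc hd)
    have haj : a j = cu (-(c / d)) hcd' * a i := by
      ext
      simp only [cu, Units.val_mul, Units.val_mk0, map_neg, map_div₀]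
      field_simp
      linear_combination hw0
    have e1 : symb a = symb (update (update a i (a i)) j (cu (-(c / d)) hcd')) +
        symb (update (update a i (a i)) j (a i)) := by
      rw [← symb_update_mul, ← haj, e0]
    have e2 : symb (update (update a i (a i)) j (a i)) = 0 := by
      refine symb_self _ hij ?_
      rw [update_of_ne hij, update_self, update_self]
    rw [e1, e2, add_zero]
    exact mem4 _ _ (ha i) (isConst_cu _ hcd')
  · set w : Kˣ := Units.mk0 _ hw0 with hwdef
    have hx := symb_expand a hij (a i) (a j) (cu c hc) (cu d hd) w rfl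
    rw [e0] at hx
    have hwV : (w : K) ∈ V' := hw
    rw [hx]
    refine Submodule.sub_mem _ (Submodule.sub_mem _ (Submodule.sub_mem _ (Submodule.add_mem _
      (Submodule.add_mem _ (Submodule.add_mem _ ?_ ?_) ?_) ?_) ?_) ?_) ?_
    · exact mem5 _ _ kc hwV
    · exact mem1 _ _ (ha i) hwV
    · exact mem6 _ _ hwV kd
    · exact mem2 _ _ hwV (ha j)
    · exact mem7 _ _ kc kd
    · exact mem3 _ _ kc (ha j)
    · exact mem4 _ _ (ha i) kd

/-- Any two elements of `L (n + 1)` have a nontrivial combination in `L n`, if `I` is rational. -/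
theorem exists_comb_L [CharZero k] [IsFF k K] (I : Place k K) (hI : I.deg = 1) (n : ℤ) :
    ∀ x ∈ L I (n + 1), ∀ y ∈ L I (n + 1), ∃ c d : k, (c ≠ 0 ∨ d ≠ 0) ∧
      algebraMap k K c * x + algebraMap k K d * y ∈ L I n := by
  intro x hx y hy
  set S : Submodule k (L I (n + 1)) := (L I n).comap (L I (n + 1)).subtype with hS
  have hle : L I n ≤ L I (n + 1) := L_mono I (by omega)
  have h1 : finrank k S = finrank k (L I n) :=
    (Submodule.comapSubtypeEquivOfLe hle).finrank_eq
  have h2 := Submodule.finrank_quotient_add_finrank S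
  have h3 : (finrank k (L I (n + 1)) : ℤ) ≤ finrank k (L I n) + 1 := by
    have := finrank_L_le I (show n ≤ n + 1 by omega)
    rw [hI] at this
    simpa using this
  have h4 : finrank k ((L I (n + 1)) ⧸ S) ≤ 1 := by omega
  let v : Fin 2 → (L I (n + 1)) ⧸ S := ![S.mkQ ⟨x, hx⟩, S.mkQ ⟨y, hy⟩]
  have hdep : ¬ LinearIndependent k v := by
    intro h
    have := h.fintype_card_le_finrank
    simp at this
    omega
  rw [Fintype.not_linearIndependent_iff] at hdep
  obtain ⟨c, hc, i, hi⟩ := hdep
  refine ⟨c 0, c 1, ?_, ?_⟩
  · fin_cases i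
    · exact Or.inl hi
    · exact Or.inr hi
  · rw [Fin.sum_univ_two] at hc
    simp only [v, Matrix.cons_val_zero, Matrix.cons_val_one] at hc
    rw [← map_smul, ← map_smul, ← map_add, Submodule.mkQ_apply, Submodule.Quotient.mk_eq_zero] at hc
    have : ((c 0 • (⟨x, hx⟩ : L I (n + 1)) + c 1 • (⟨y, hy⟩ : L I (n + 1)) : L I (n + 1)) : K) ∈
        L I n := hc
    simpa [Algebra.smul_def] using this

end Pool.Agent.KS6_19.CG
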